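import Pool.Agent.TH510.Sefe.Defs

/-!
# Drawings that are straight near the vertices
-/

set_option autoImplicit false

namespace Pool.Agent.Y857.HT

open Set Complex Topology Filter Pool.Agent.TH510.Sefe

/-- `z` lies on the ray from `p` in the direction `s` (for `s ≠ 0`) -/
def Ray (p s z : ℂ) : Prop :=
  ((z - p) * (starRingEnd ℂ) s).im = 0 ∧ 0 ≤ ((z - p) * (starRingEnd ℂ) s).re

theorem isClosed_ray (p s : ℂ) : IsClosed {z | Ray p s z} := by
  have h1 : Continuous fun z : ℂ => ((z - p) * (starRingEnd ℂ) s).im := by fun_prop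
  have h2 : Continuous fun z : ℂ => ((z - p) * (starRingEnd ℂ) s).re := by fun_prop
  exact (isClosed_eq h1 continuous_const).inter (isClosed_le continuous_const h2)

/-- near each vertex the drawing is contained in finitely many rays from the vertex -/
def Nice {V : Type} {G : SimpleGraph V} (D : Drawing G) : Prop :=
  ∀ v : V, ∃ S : Finset ℂ, (∀ s ∈ S, s ≠ 0) ∧
    ∀ᶠ z in 𝓝 (D.pt v), ∀ e ∈ G.edgeSet, z ∈ D.arc e → ∃ s ∈ S, Ray (D.pt v) s z

theorem isArc_compact {a : Set ℂ} {x y : ℂ} (h : IsArc a x y) : IsCompact a := by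
  obtain ⟨γ, -, rfl⟩ := h
  exact isCompact_range γ.continuous

theorem isArc_symm {a : Set ℂ} {x y : ℂ} (h : IsArc a x y) : IsArc a y x := by
  obtain ⟨γ, hγ, hr⟩ := h
  exact ⟨γ.symm, fun s t hst => unitInterval.symm_bijective.1 (hγ hst), by
    rw [Path.symm_range]; exact hr⟩

theorem arc_compact {V : Type} {G : SimpleGraph V} (D : Drawing G) {e : Sym2 V}
    (he : e ∈ G.edgeSet) : IsCompact (D.arc e) := by
  induction e with
  | _ u v => exact isArc_compact (D.isArc u v he)

/-- properness only depends on the two arcs near the crossing -/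
theorem proper_congr {a b a' b' : Set ℂ} {z : ℂ} (h : IsProperCrossing a b z) {U : Set ℂ}
    (hU : IsOpen U) (hz : z ∈ U) (ha : ∀ w ∈ U, w ∈ a ↔ w ∈ a') (hb : ∀ w ∈ U, w ∈ b ↔ w ∈ b') :
    IsProperCrossing a' b' z := by
  obtain ⟨φ, h1, h2, h3⟩ := h
  refine ⟨φ.restrOpen U hU, ⟨h1, hz⟩, h2, fun w hw => ?_⟩
  have := h3 w hw.1
  rw [← ha w hw.2, ← hb w hw.2]
  exact this

/-- eventually outside all the arcs that do not contain the point -/
theorem eventually_notMem {V : Type} [Finite V] {G : SimpleGraph V} (D : Drawing G) (p : ℂ)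
    (A : Set (Sym2 V)) (hA : A ⊆ G.edgeSet) (h : ∀ e ∈ A, p ∉ D.arc e) :
    ∀ᶠ z in 𝓝 p, ∀ e ∈ A, z ∉ D.arc e := by
  rw [eventually_all_finite (Set.toFinite A)]
  intro e he
  exact (arc_compact D (hA he)).isClosed.isOpen_compl.mem_nhds (h e he)

theorem ray_smul {p u : ℂ} {t : ℝ} (ht : 0 ≤ t) : Ray p u (p + (t : ℂ) * u) := by
  unfold Ray
  have : (p + (t : ℂ) * u - p) * (starRingEnd ℂ) u = ((t * Complex.normSq u : ℝ) : ℂ) := by
    rw [add_sub_cancel_left, mul_assoc, Complex.mul_conj]; push_cast; ring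
  rw [this]
  refine ⟨Complex.ofReal_im _, ?_⟩
  rw [Complex.ofReal_re]
  exact mul_nonneg ht (Complex.normSq_nonneg u)

end Pool.Agent.Y857.HT
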