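import Pool.Agent.Y857.HT.Poly

/-!
# The three basic drawings
-/

set_option autoImplicit false

namespace Pool.Agent.Y857.HT

open Set Complex Topology Filter Pool.Agent.TH510.Sefe Pool.Agent.H858R3.Poly

/-- the shared path has three edges: `c = 0`, `d = 1`, `a i = 2 + i`, `b i = 5 + i` (`i < 3`),
and the inner vertices `8`, `9` of the path -/
def d10 : PD 10 15 where
  eu := ![0, 0, 0, 0, 1, 1, 1, 1, 8, 2, 3, 4, 2, 3, 4]
  ev := ![2, 3, 4, 8, 5, 6, 7, 9, 9, 5, 6, 7, 6, 7, 5]
  pos := ![(4, 6), (7, 4), (7, 5), (0, 1), (1, 2), (6, 6), (8, 3), (6, 3), (5, 8), (4, 5)]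
  bends := ![[(0, 0), (4, 10)], [], [], [], [(5, 1)], [], [], [], [], [], [], [(10, 10)], [],
    [(8, 8)], [(10, 3)]]

def I1 (i : Fin 15) : Bool := decide (i.val < 12)
def I2 (i : Fin 15) : Bool := decide (i.val < 9) || decide (12 ≤ i.val)

theorem d10_ok : d10.OK where
  pos := by decide +kernel
  self := by decide +kernel
  avoid := by decide +kernel
  pair := by decide +kernel
  inj := by decide +kernel
  ne := by decide +kernel

theorem d10_I : ∀ i, I1 i = true ∨ I2 i = true := by decide +kernel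

theorem d10_even : ∀ i j, ((I1 i = true ∧ I1 j = true) ∨ (I2 i = true ∧ I2 j = true)) →
      d10.indep i j = true → Even (d10.cnt i j) := by decide +kernel

theorem d10_mid : ∀ j, j ≠ 8 → (d10.indep 8 j = true ∧ d10.indep j 8 = true ∧
    Even (d10.cnt 8 j) ∧ Even (d10.cnt j 8)) ∨ (d10.noX 8 j = true ∧ d10.noX j 8 = true) := by
  decide +kernel

/-- the shared path has two edges: its inner vertex is `8` -/
def d9 : PD 9 14 where
  eu := ![0, 0, 0, 0, 1, 1, 1, 1, 2, 3, 4, 2, 3, 4]
  ev := ![2, 3, 4, 8, 5, 6, 7, 8, 5, 6, 7, 6, 7, 5]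
  pos := ![(4, 6), (7, 4), (7, 5), (0, 1), (1, 2), (6, 6), (8, 3), (6, 3), (4, 5)]
  bends := ![[(0, 0), (4, 10)], [], [], [(5, 8)], [(5, 1)], [], [], [], [], [], [(10, 10)], [],
    [(8, 8)], [(10, 3)]]

def J1 (i : Fin 14) : Bool := decide (i.val < 11)
def J2 (i : Fin 14) : Bool := decide (i.val < 8) || decide (11 ≤ i.val)

theorem d9_ok : d9.OK where
  pos := by decide +kernel
  self := by decide +kernel
  avoid := by decide +kernel
  pair := by decide +kernel
  inj := by decide +kernel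
  ne := by decide +kernel

theorem d9_I : ∀ i, J1 i = true ∨ J2 i = true := by decide +kernel

theorem d9_even : ∀ i j, ((J1 i = true ∧ J1 j = true) ∨ (J2 i = true ∧ J2 j = true)) →
      d9.indep i j = true → Even (d9.cnt i j) := by decide +kernel

/-- the shared path is the edge `c d` -/
def d8 : PD 8 13 where
  eu := ![0, 0, 0, 0, 1, 1, 1, 2, 3, 4, 2, 3, 4]
  ev := ![2, 3, 4, 1, 5, 6, 7, 5, 6, 7, 6, 7, 5]
  pos := ![(4, 6), (7, 4), (7, 5), (0, 1), (1, 2), (6, 6), (8, 3), (6, 3)]
  bends := ![[(0, 0), (4, 10)], [], [], [(5, 8), (4, 5)], [(5, 1)], [], [], [], [], [(10, 10)], [],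
    [(8, 8)], [(10, 3)]]

def K1 (i : Fin 13) : Bool := decide (i.val < 10)
def K2 (i : Fin 13) : Bool := decide (i.val < 7) || decide (10 ≤ i.val)

theorem d8_ok : d8.OK where
  pos := by decide +kernel
  self := by decide +kernel
  avoid := by decide +kernel
  pair := by decide +kernel
  inj := by decide +kernel
  ne := by decide +kernel

theorem d8_I : ∀ i, K1 i = true ∨ K2 i = true := by decide +kernel

theorem d8_even : ∀ i j, ((K1 i = true ∧ K1 j = true) ∨ (K2 i = true ∧ K2 j = true)) →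
      d8.indep i j = true → Even (d8.cnt i j) := by decide +kernel

end Pool.Agent.Y857.HT
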