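import Pool.Agent.Y857.HT.Base

/-!
# Drawings on a larger vertex set
-/

set_option autoImplicit false

namespace Pool.Agent.Y857.HT

open Set Complex Topology Filter Pool.Agent.TH510.Sefe

theorem ext {V₀ V : Type} [Finite V₀] [Finite V] {G₀ : SimpleGraph V₀} (D : Drawing G₀)
    (hN : Nice D) (φ : V₀ ↪ V) :
    ∃ D' : Drawing (G₀.map φ), Nice D' ∧ ∀ e ∈ G₀.edgeSet, ∀ f ∈ G₀.edgeSet,
      D'.crossings (e.map φ) (f.map φ) = D.crossings e f := by
  classical
  -- a bound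
  obtain ⟨R, hR0, hR⟩ : ∃ R : ℝ, 0 < R ∧
      ∀ z ∈ (⋃ e ∈ G₀.edgeSet, D.arc e) ∪ Set.range D.pt, ‖z‖ ≤ R := by
    have hc : IsCompact ((⋃ e ∈ G₀.edgeSet, D.arc e) ∪ Set.range D.pt) :=
      ((Set.toFinite _).isCompact_biUnion fun e he => arc_compact D he).union
        (Set.finite_range D.pt).isCompact
    exact hc.isBounded.exists_pos_norm_le
  have hRa : ∀ e ∈ G₀.edgeSet, ∀ z ∈ D.arc e, ‖z‖ ≤ R := fun e he z hz =>
    hR z (Or.inl (Set.mem_biUnion he hz))
  have hRp : ∀ x, ‖D.pt x‖ ≤ R := fun x => hR _ (Or.inr ⟨x, rfl⟩)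
  obtain ⟨n, ⟨ι⟩⟩ := Finite.exists_equiv_fin V
  let far : V → ℂ := fun x => ((R + 1 + ((ι x : Fin n) : ℕ) : ℝ) : ℂ)
  have hfar : ∀ x, R < ‖far x‖ := by
    intro x
    have h0 : (0 : ℝ) ≤ ((ι x : Fin n) : ℕ) := Nat.cast_nonneg _
    change R < ‖((R + 1 + ((ι x : Fin n) : ℕ) : ℝ) : ℂ)‖
    rw [Complex.norm_real, Real.norm_of_nonneg (by linarith)]
    linarith
  have hfinj : Function.Injective far := by
    intro x y hxy
    have h1 := Complex.ofReal_injective hxy
    have h2 : (((ι x : Fin n) : ℕ) : ℝ) = (((ι y : Fin n) : ℕ) : ℝ) := by linarith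
    exact ι.injective (Fin.ext (by exact_mod_cast h2))
  let pt' : V → ℂ := fun x => if h : ∃ y, φ y = x then D.pt h.choose else far x
  have ptφ : ∀ y, pt' (φ y) = D.pt y := by
    intro y
    have h : ∃ y', φ y' = φ y := ⟨y, rfl⟩
    change (if h : ∃ y', φ y' = φ y then D.pt h.choose else far (φ y)) = _
    rw [dif_pos h]
    exact congrArg D.pt (φ.injective h.choose_spec)
  have ptf : ∀ x, (¬ ∃ y, φ y = x) → pt' x = far x := fun x h => dif_neg h
  let arc' : Sym2 V → Set ℂ := fun e => {z | ∃ e₀ : Sym2 V₀, e₀.map φ = e ∧ z ∈ D.arc e₀}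
  have arcφ : ∀ e₀ : Sym2 V₀, arc' (e₀.map φ) = D.arc e₀ := by
    intro e₀
    ext z
    constructor
    · rintro ⟨e₁, h1, h2⟩
      rw [Sym2.map.injective φ.injective h1] at h2
      exact h2
    · intro hz; exact ⟨e₀, rfl, hz⟩
  have hE : ∀ e ∈ (G₀.map φ).edgeSet, ∃ e₀ ∈ G₀.edgeSet, e₀.map φ = e := by
    intro e he
    rw [SimpleGraph.edgeSet_map] at he
    obtain ⟨e₀, h1, h2⟩ := he
    exact ⟨e₀, h1, h2⟩
  have rng : ∀ e ∈ G₀.edgeSet, ∀ z ∈ D.arc e, (z ∉ Set.range pt' ↔ z ∉ Set.range D.pt) := by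
    intro e he z hz
    rw [not_iff_not]
    constructor
    · rintro ⟨x, rfl⟩
      by_cases hx : ∃ y, φ y = x
      · obtain ⟨y, rfl⟩ := hx
        exact ⟨y, (ptφ y).symm⟩
      · exfalso
        rw [ptf x hx] at hz
        exact absurd (hRa e he _ hz) (not_le.2 (hfar x))
    · rintro ⟨x, rfl⟩
      exact ⟨φ x, ptφ x⟩
  let D' : Drawing (G₀.map φ) :=
    { pt := pt'
      arc := arc'
      pt_inj := by
        intro x y hxy
        by_cases hx : ∃ a, φ a = x <;> by_cases hy : ∃ b, φ b = y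
        · obtain ⟨a, rfl⟩ := hx
          obtain ⟨b, rfl⟩ := hy
          rw [ptφ, ptφ] at hxy
          rw [D.pt_inj hxy]
        · obtain ⟨a, rfl⟩ := hx
          rw [ptφ, ptf y hy] at hxy
          exact absurd (by rw [← hxy]; exact hRp a) (not_le.2 (hfar y))
        · obtain ⟨b, rfl⟩ := hy
          rw [ptφ, ptf x hx] at hxy
          exact absurd (by rw [hxy]; exact hRp b) (not_le.2 (hfar x))
        · rw [ptf x hx, ptf y hy] at hxy
          exact hfinj hxy
      isArc := by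
        intro x y hxy
        rw [SimpleGraph.map_adj] at hxy
        obtain ⟨a, b, hab, rfl, rfl⟩ := hxy
        rw [ptφ, ptφ, show s(φ a, φ b) = (s(a, b) : Sym2 V₀).map φ from rfl, arcφ]
        exact D.isArc a b hab
      avoid := by
        intro e he x hx
        obtain ⟨e₀, he₀, rfl⟩ := hE e he
        rw [arcφ] at hx
        by_cases hxy : ∃ a, φ a = x
        · obtain ⟨a, rfl⟩ := hxy
          rw [ptφ] at hx
          exact Sym2.mem_map.2 ⟨a, D.avoid e₀ he₀ a hx, rfl⟩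
        · rw [ptf x hxy] at hx
          exact absurd (hRa e₀ he₀ _ hx) (not_le.2 (hfar x))
      finite := by
        intro e he f hf hef
        obtain ⟨e₀, he₀, rfl⟩ := hE e he
        obtain ⟨f₀, hf₀, rfl⟩ := hE f hf
        rw [arcφ, arcφ]
        exact D.finite e₀ he₀ f₀ hf₀ (fun h => hef (by rw [h]))
      proper := by
        intro e he f hf hef z hz hzn
        obtain ⟨e₀, he₀, rfl⟩ := hE e he
        obtain ⟨f₀, hf₀, rfl⟩ := hE f hf
        rw [arcφ, arcφ] at hz ⊢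
        exact D.proper e₀ he₀ f₀ hf₀ (fun h => hef (by rw [h])) z hz ((rng e₀ he₀ z hz.1).1 hzn) }
  refine ⟨D', ?_, ?_⟩
  · intro x
    by_cases hx : ∃ y, φ y = x
    · obtain ⟨y, rfl⟩ := hx
      obtain ⟨S, hS0, hS⟩ := hN y
      refine ⟨S, hS0, ?_⟩
      have h1 : D'.pt (φ y) = D.pt y := ptφ y
      rw [h1]
      filter_upwards [hS] with z hz e he hze
      obtain ⟨e₀, he₀, rfl⟩ := hE e he
      have hze' : z ∈ arc' (e₀.map φ) := hze
      rw [arcφ] at hze'
      exact hz e₀ he₀ hze'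
    · refine ⟨∅, by simp, ?_⟩
      have h1 : D'.pt x = far x := ptf x hx
      rw [h1]
      filter_upwards [eventually_notMem D (far x) G₀.edgeSet subset_rfl
        (fun e he h => absurd (hRa e he _ h) (not_le.2 (hfar x)))] with z hz e he hze
      obtain ⟨e₀, he₀, rfl⟩ := hE e he
      have hze' : z ∈ arc' (e₀.map φ) := hze
      rw [arcφ] at hze'
      exact absurd hze' (hz e₀ he₀)
  · intro e he f hf
    ext z
    change (z ∈ arc' (e.map φ) ∩ arc' (f.map φ) ∧ z ∉ Set.range pt') ↔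
      (z ∈ D.arc e ∩ D.arc f ∧ z ∉ Set.range D.pt)
    rw [arcφ, arcφ]
    constructor
    · rintro ⟨h1, h2⟩
      exact ⟨h1, (rng e he z h1.1).1 h2⟩
    · rintro ⟨h1, h2⟩
      exact ⟨h1, (rng e he z h1.1).2 h2⟩

end Pool.Agent.Y857.HT
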