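import Mathlib

/-!
# Building a forest leaf by leaf
-/

set_option autoImplicit false

namespace Pool.Agent.Y857.HT

variable {V : Type}

/-- the vertex is covered by the set of edges -/
def Cov (E : Set (Sym2 V)) (x : V) : Prop := ∃ e ∈ E, x ∈ e

theorem Cov.mono {E E' : Set (Sym2 V)} (h : E ⊆ E') {x : V} (hx : Cov E x) : Cov E' x := by
  obtain ⟨e, he, hxe⟩ := hx
  exact ⟨e, h he, hxe⟩

theorem not_bridge {T : SimpleGraph V} (hT : T.IsAcyclic) {E : Set (Sym2 V)}
    (hE : E ⊆ T.edgeSet) {v w : V} (hvw : T.Adj v w) (hn : s(v, w) ∉ E) :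
    ¬ (SimpleGraph.fromEdgeSet E).Reachable v w := by
  intro hr
  rw [SimpleGraph.isAcyclic_iff_forall_adj_isBridge] at hT
  have hb := hT hvw
  rw [SimpleGraph.isBridge_iff] at hb
  refine hb (hr.mono ?_)
  intro x y hxy
  rw [SimpleGraph.fromEdgeSet_adj] at hxy
  rw [SimpleGraph.deleteEdges_adj]
  refine ⟨hE hxy.1, ?_⟩
  intro h1
  rw [Set.mem_singleton_iff] at h1
  rw [h1] at hxy
  exact hn hxy.1

theorem grow [Finite V] {T : SimpleGraph V} (hT : T.IsAcyclic) (Q : Set (Sym2 V) → Prop)
    {E₀ : Set (Sym2 V)}
    (hQ : ∀ E : Set (Sym2 V), E₀ ⊆ E → E ⊆ T.edgeSet → ∀ v w, T.Adj v w → (∀ e ∈ E, w ∉ e) →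
      Q E → Q (insert s(v, w) E))
    (hE₀ : E₀ ⊆ T.edgeSet)
    (hconn : ∀ x y, Cov E₀ x → Cov E₀ y → (SimpleGraph.fromEdgeSet E₀).Reachable x y)
    (h0 : Q E₀) : Q T.edgeSet := by
  classical
  have key : ∀ n : ℕ, ∀ E : Set (Sym2 V), (T.edgeSet \ E).ncard = n → E₀ ⊆ E → E ⊆ T.edgeSet →
      (∀ x y, Cov E x → Cov E y → T.Reachable x y → (SimpleGraph.fromEdgeSet E).Reachable x y) →
      Q E → Q T.edgeSet := by
    intro n
    induction n using Nat.strong_induction_on with
    | _ n ih =>
      intro E hn hE0 hE hJ hQE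
      by_cases hall : T.edgeSet ⊆ E
      · rw [Set.Subset.antisymm hall hE]; exact hQE
      have dec : ∀ e ∈ T.edgeSet, e ∉ E → (T.edgeSet \ insert e E).ncard < n := by
        intro e he hne
        rw [← hn]
        apply Set.ncard_lt_ncard _ (Set.toFinite _)
        constructor
        · intro f hf
          exact ⟨hf.1, fun h => hf.2 (Or.inr h)⟩
        · intro h
          exact (h ⟨he, hne⟩).2 (Or.inl rfl)
      by_cases h1 : ∃ v w, T.Adj v w ∧ Cov E v ∧ ¬ Cov E w
      · obtain ⟨v, w, hvw, hv, hw⟩ := h1
        have hw' : ∀ e ∈ E, w ∉ e := fun e he hwe => hw ⟨e, he, hwe⟩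
        have hne : s(v, w) ∉ E := fun h => hw' _ h (Sym2.mem_mk_right v w)
        refine ih _ (dec _ hvw hne) (insert s(v, w) E) rfl (hE0.trans (Set.subset_insert _ _))
          (Set.insert_subset hvw hE) ?_ (hQ E hE0 hE v w hvw hw' hQE)
        have hmono : SimpleGraph.fromEdgeSet E ≤ SimpleGraph.fromEdgeSet (insert s(v, w) E) :=
          SimpleGraph.fromEdgeSet_mono (Set.subset_insert _ _)
        have hadj : (SimpleGraph.fromEdgeSet (insert s(v, w) E)).Reachable v w := by
          apply SimpleGraph.Adj.reachable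
          rw [SimpleGraph.fromEdgeSet_adj]
          exact ⟨Or.inl rfl, hvw.ne⟩
        have hcov : ∀ x, Cov (insert s(v, w) E) x → Cov E x ∨ x = w := by
          rintro x ⟨e, he | he, hx⟩
          · rw [he, Sym2.mem_iff] at hx
            rcases hx with rfl | rfl
            · exact Or.inl hv
            · exact Or.inr rfl
          · exact Or.inl ⟨e, he, hx⟩
        have hwy : ∀ y, Cov E y → T.Reachable w y →
            (SimpleGraph.fromEdgeSet (insert s(v, w) E)).Reachable w y := by
          intro y hy hr
          exact hadj.symm.trans ((hJ v y hv hy (hvw.reachable.trans hr)).mono hmono)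
        intro x y hx hy hr
        rcases hcov x hx with hx' | hx' <;> rcases hcov y hy with hy' | hy'
        · exact (hJ x y hx' hy' hr).mono hmono
        · rw [hy'] at hr ⊢
          exact (hwy x hx' hr.symm).symm
        · rw [hx'] at hr ⊢
          exact hwy y hy' hr
        · rw [hx', hy']
      · push Not at h1
        obtain ⟨e, he, hne⟩ := Set.not_subset.1 hall
        induction e with
        | _ v w =>
        have hvw : T.Adj v w := he
        have hv : ¬ Cov E v := by
          intro hv
          have hw := h1 v w hvw hv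
          exact not_bridge hT hE hvw hne (hJ v w hv hw hvw.reachable)
        have hw : ¬ Cov E w := fun hw => hv (h1 w v hvw.symm hw)
        have hw' : ∀ e ∈ E, w ∉ e := fun e he hwe => hw ⟨e, he, hwe⟩
        have closed : ∀ y, Cov E y → ∀ x, T.Reachable y x → Cov E x := by
          rintro y hy x ⟨p⟩
          induction p with
          | nil => exact hy
          | cons hadj _ ih => exact ih (h1 _ _ hadj hy)
        refine ih _ (dec _ hvw hne) (insert s(v, w) E) rfl (hE0.trans (Set.subset_insert _ _))
          (Set.insert_subset hvw hE) ?_ (hQ E hE0 hE v w hvw hw' hQE)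
        have hmono : SimpleGraph.fromEdgeSet E ≤ SimpleGraph.fromEdgeSet (insert s(v, w) E) :=
          SimpleGraph.fromEdgeSet_mono (Set.subset_insert _ _)
        have hadj : (SimpleGraph.fromEdgeSet (insert s(v, w) E)).Reachable v w := by
          apply SimpleGraph.Adj.reachable
          rw [SimpleGraph.fromEdgeSet_adj]
          exact ⟨Or.inl rfl, hvw.ne⟩
        have hcov : ∀ x, Cov (insert s(v, w) E) x → Cov E x ∨ (x = v ∨ x = w) := by
          rintro x ⟨e, he | he, hx⟩
          · rw [he, Sym2.mem_iff] at hx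
            exact Or.inr hx
          · exact Or.inl ⟨e, he, hx⟩
        have hbad : ∀ x y, Cov E x → (y = v ∨ y = w) → ¬ T.Reachable x y := by
          rintro x y hx (rfl | rfl) hr
          · exact hv (closed x hx _ hr)
          · exact hw (closed x hx _ hr)
        intro x y hx hy hr
        rcases hcov x hx with hx | hx <;> rcases hcov y hy with hy | hy
        · exact (hJ x y hx hy hr).mono hmono
        · exact absurd hr (hbad x y hx hy)
        · exact absurd hr.symm (hbad y x hy hx)
        · rcases hx with rfl | rfl <;> rcases hy with rfl | rfl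
          · exact SimpleGraph.Reachable.refl _
          · exact hadj
          · exact hadj.symm
          · exact SimpleGraph.Reachable.refl _
  exact key _ E₀ rfl subset_rfl hE₀ (fun x y hx hy _ => hconn x y hx hy) h0

end Pool.Agent.Y857.HT
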