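import Pool.Agent.Y857.HT.Stage

/-!
# Subdividing the path
-/

set_option autoImplicit false

namespace Pool.Agent.Y857.HT

open Set Complex Topology Filter Pool.Agent.TH510.Sefe Pool.Agent.H858R3.Poly

variable {V : Type} {a b : Fin 3 → V} {p : ℕ → V} {l : ℕ}

theorem Z_diag (h : Setup a b p l) {Z : Set (Sym2 V)} (hZ : ∀ e ∈ Z, ∃ i j, e = s(a i, b j)) :
    ∀ e ∈ Z, ¬ e.IsDiag := by
  intro e he
  obtain ⟨i, j, rfl⟩ := hZ e he
  simpa using h.hab i j

theorem step_free (h : Setup a b p l) {Z : Set (Sym2 V)} (hZ : ∀ e ∈ Z, ∃ i j, e = s(a i, b j))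
    {k : ℕ} (hk1 : 1 ≤ k) (hk : k + 3 ≤ l) :
    ∀ e ∈ (fes (spokes (p 0) (p l) a b ∪ pthk p l k ∪ Z)).edgeSet, p (k + 1) ∉ e := by
  intro e he hmem
  rw [mem_fes (diag_union (diag_union h.spokes_diag (h.pthk_diag (by omega))) (Z_diag h hZ))] at he
  rcases he with ((⟨i, rfl⟩ | ⟨i, rfl⟩) | (⟨i, hi, rfl⟩ | rfl | rfl)) | he
  · rcases Sym2.mem_iff.1 hmem with h1 | h1
    · have := h.hp _ _ (by omega) (by omega) h1; omega
    · exact h.hap _ _ (by omega) h1.symm
  · rcases Sym2.mem_iff.1 hmem with h1 | h1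
    · have := h.hp _ _ (by omega) (by omega) h1; omega
    · exact h.hbp _ _ (by omega) h1.symm
  · rcases Sym2.mem_iff.1 hmem with h1 | h1
    · have := h.hp _ _ (by omega) (by omega) h1; omega
    · have := h.hp _ _ (by omega) (by omega) h1; omega
  · rcases Sym2.mem_iff.1 hmem with h1 | h1
    · have := h.hp _ _ (by omega) (by omega) h1; omega
    · have := h.hp _ _ (by omega) (by omega) h1; omega
  · rcases Sym2.mem_iff.1 hmem with h1 | h1
    · have := h.hp _ _ (by omega) (by omega) h1; omega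
    · have := h.hp _ _ (by omega) (by omega) h1; omega
  · obtain ⟨i, j, rfl⟩ := hZ e he
    rcases Sym2.mem_iff.1 hmem with h1 | h1
    · exact h.hap _ _ (by omega) h1.symm
    · exact h.hbp _ _ (by omega) h1.symm

theorem step_edges (h : Setup a b p l) {Z : Set (Sym2 V)} (hZ : ∀ e ∈ Z, ∃ i j, e = s(a i, b j))
    {k : ℕ} (hk1 : 1 ≤ k) (hk : k + 3 ≤ l) (e : Sym2 V) :
    e ∈ (fes (spokes (p 0) (p l) a b ∪ pthk p l (k + 1) ∪ Z)).edgeSet ↔
      (e ∈ (fes (spokes (p 0) (p l) a b ∪ pthk p l k ∪ Z)).edgeSet ∧ e ≠ s(p k, p (l - 1))) ∨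
        e = s(p k, p (k + 1)) ∨ e = s(p (k + 1), p (l - 1)) := by
  rw [mem_fes (diag_union (diag_union h.spokes_diag (h.pthk_diag (by omega))) (Z_diag h hZ)),
    mem_fes (diag_union (diag_union h.spokes_diag (h.pthk_diag (by omega))) (Z_diag h hZ))]
  have na : ∀ i x, s(x, a i) ≠ s(p k, p (l - 1)) := by
    intro i x h1
    rw [Sym2.eq_iff] at h1
    rcases h1 with ⟨-, h1⟩ | ⟨-, h1⟩
    · exact h.hap _ _ (by omega) h1
    · exact h.hap _ _ (by omega) h1
  have nb : ∀ i x, s(x, b i) ≠ s(p k, p (l - 1)) := by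
    intro i x h1
    rw [Sym2.eq_iff] at h1
    rcases h1 with ⟨-, h1⟩ | ⟨-, h1⟩
    · exact h.hbp _ _ (by omega) h1
    · exact h.hbp _ _ (by omega) h1
  have np : ∀ i j, i ≤ l → j ≤ l → s(p i, p j) = s(p k, p (l - 1)) →
      (i = k ∧ j = l - 1) ∨ (i = l - 1 ∧ j = k) := by
    intro i j hi hj h1
    rw [Sym2.eq_iff] at h1
    rcases h1 with ⟨h1, h2⟩ | ⟨h1, h2⟩
    · exact Or.inl ⟨h.hp _ _ hi (by omega) h1, h.hp _ _ hj (by omega) h2⟩
    · exact Or.inr ⟨h.hp _ _ hi (by omega) h1, h.hp _ _ hj (by omega) h2⟩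
  constructor
  · rintro (((⟨i, rfl⟩ | ⟨i, rfl⟩) | (⟨i, hi, rfl⟩ | rfl | rfl)) | he)
    · exact Or.inl ⟨Or.inl (Or.inl (Or.inl ⟨i, rfl⟩)), na _ _⟩
    · exact Or.inl ⟨Or.inl (Or.inl (Or.inr ⟨i, rfl⟩)), nb _ _⟩
    · rcases Nat.lt_or_ge i k with hik | hik
      · refine Or.inl ⟨Or.inl (Or.inr (Or.inl ⟨i, hik, rfl⟩)), fun h1 => ?_⟩
        have := np i (i + 1) (by omega) (by omega) h1
        omega
      · obtain rfl : i = k := by omega
        exact Or.inr (Or.inl rfl)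
    · exact Or.inr (Or.inr rfl)
    · refine Or.inl ⟨Or.inl (Or.inr (Or.inr (Or.inr rfl))), fun h1 => ?_⟩
      have := np (l - 1) l (by omega) (by omega) h1
      omega
    · refine Or.inl ⟨Or.inr he, ?_⟩
      obtain ⟨i, j, rfl⟩ := hZ e he
      exact nb _ _
  · rintro (⟨(((⟨i, rfl⟩ | ⟨i, rfl⟩) | (⟨i, hi, rfl⟩ | rfl | rfl)) | he), hne⟩ | rfl | rfl)
    · exact Or.inl (Or.inl (Or.inl ⟨i, rfl⟩))
    · exact Or.inl (Or.inl (Or.inr ⟨i, rfl⟩))
    · exact Or.inl (Or.inr (Or.inl ⟨i, by omega, rfl⟩))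
    · exact absurd rfl hne
    · exact Or.inl (Or.inr (Or.inr (Or.inr rfl)))
    · exact Or.inr he
    · exact Or.inl (Or.inr (Or.inl ⟨k, by omega, rfl⟩))
    · exact Or.inl (Or.inr (Or.inr (Or.inl rfl)))

theorem XX_form (e : Sym2 V) (he : e ∈ XX a b) : ∃ i j, e = s(a i, b j) := by
  obtain ⟨i, rfl⟩ := he
  exact ⟨i, i, rfl⟩

theorem YY_form (e : Sym2 V) (he : e ∈ YY a b) : ∃ i j, e = s(a i, b j) := by
  obtain ⟨i, rfl⟩ := he
  exact ⟨i, i + 1, rfl⟩

theorem stage [Finite V] (h : Setup a b p l) (hl : 3 ≤ l) (k : ℕ) : 1 ≤ k → k + 2 ≤ l →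
    StM (fes (spokes (p 0) (p l) a b ∪ pthk p l k ∪ XX a b))
      (fes (spokes (p 0) (p l) a b ∪ pthk p l k ∪ YY a b)) s(p k, p (l - 1)) := by
  induction k with
  | zero => intro h0; omega
  | succ k ih =>
    intro h1 h2
    rcases Nat.eq_zero_or_pos k with rfl | hk
    · exact base3 h hl
    · have hS := ih hk (by omega)
      refine hS.sub ?_ ?_ (step_free h XX_form hk (by omega)) (step_free h YY_form hk (by omega))
        (step_edges h XX_form hk (by omega)) (step_edges h YY_form hk (by omega))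
      · intro h3
        have := h.hp _ _ (by omega) (by omega) h3; omega
      · intro h3
        have := h.hp _ _ (by omega) (by omega) h3; omega

theorem pthk_last (hl : 3 ≤ l) : pthk p l (l - 2) = pth p l := by
  ext e
  constructor
  · rintro (⟨i, hi, rfl⟩ | rfl | rfl)
    · exact ⟨i, by omega, rfl⟩
    · refine ⟨l - 2, by omega, ?_⟩
      rw [show l - 2 + 1 = l - 1 by omega]
    · refine ⟨l - 1, by omega, ?_⟩
      rw [show l - 1 + 1 = l by omega]
  · rintro ⟨i, hi, rfl⟩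
    rcases Nat.lt_or_ge i (l - 2) with h1 | h1
    · exact Or.inl ⟨i, h1, rfl⟩
    · obtain rfl | rfl : i = l - 2 ∨ i = l - 1 := by omega
      · right; left
        rw [show l - 2 + 1 = l - 1 by omega]
      · right; right
        rw [show l - 1 + 1 = l by omega]

/-- the drawing of the path with three leaves at each end -/
theorem broom [Finite V] (h : Setup a b p l) :
    St (fes (spokes (p 0) (p l) a b ∪ pth p l ∪ XX a b))
      (fes (spokes (p 0) (p l) a b ∪ pth p l ∪ YY a b)) := by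
  have hl := h.hl
  rcases Nat.lt_or_ge l 3 with h3 | h3
  · obtain rfl | rfl : l = 1 ∨ l = 2 := by omega
    · exact base1 h
    · exact base2 h
  · have := (stage h h3 (l - 2) (by omega) (by omega)).st
    rwa [pthk_last h3] at this

end Pool.Agent.Y857.HT
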