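import Pool.Agent.Y857.HT.NoSefe2
import Pool.Agent.Y857.HT.Stage2
import Pool.Agent.Y857.HT.Grow

/-!
# Every forest with a component having two vertices of degree at least four
-/

set_option autoImplicit false

namespace Pool.Agent.Y857.HT

open Set Complex Topology Filter Pool.Agent.TH510.Sefe

variable {V : Type}

theorem siocr_zero {G₁ G₂ : SimpleGraph V} (h : St G₁ G₂) :
    IsLeast {n : ℕ | ∃ D : Drawing (G₁ ⊔ G₂), siocr D = n} 0 := by
  obtain ⟨G, D, rfl, -, e1, e2⟩ := h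
  refine ⟨⟨D, ?_⟩, fun _ _ => Nat.zero_le _⟩
  unfold siocr
  have z1 : (D.restrict (le_sup_left : G₁ ≤ G₁ ⊔ G₂)).iocr = 0 := by
    unfold Drawing.iocr
    have : {p : Sym2 (Sym2 V) | ∃ e ∈ G₁.edgeSet, ∃ f ∈ G₁.edgeSet, p = s(e, f) ∧
        Indep e f ∧ Odd ((D.restrict (le_sup_left : G₁ ≤ G₁ ⊔ G₂)).crossings e f).ncard}
        = ∅ := by
      rw [Set.eq_empty_iff_forall_notMem]
      rintro p ⟨e, he, f, hf, -, hind, hodd⟩
      exact e1 e he f hf hind hodd
    rw [this, Set.ncard_empty]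
  have z2 : (D.restrict (le_sup_right : G₂ ≤ G₁ ⊔ G₂)).iocr = 0 := by
    unfold Drawing.iocr
    have : {p : Sym2 (Sym2 V) | ∃ e ∈ G₂.edgeSet, ∃ f ∈ G₂.edgeSet, p = s(e, f) ∧
        Indep e f ∧ Odd ((D.restrict (le_sup_right : G₂ ≤ G₁ ⊔ G₂)).crossings e f).ncard}
        = ∅ := by
      rw [Set.eq_empty_iff_forall_notMem]
      rintro p ⟨e, he, f, hf, -, hind, hodd⟩
      exact e2 e he f hf hind hodd
    rw [this, Set.ncard_empty]
  rw [z1, z2]

theorem exists_three {N : Set V} (hN : N.Finite) (h : 3 ≤ N.ncard) :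
    ∃ a : Fin 3 → V, Function.Injective a ∧ ∀ i, a i ∈ N := by
  classical
  have : Fintype N := hN.fintype
  obtain ⟨f⟩ := Function.Embedding.nonempty_of_card_le (α := Fin 3) (β := N) (by
    rw [Fintype.card_fin, ← Nat.card_eq_fintype_card]
    exact h)
  exact ⟨fun i => (f i : V), fun i j hij => f.injective (Subtype.ext hij), fun i => (f i).2⟩

/-- vertices of a path are connected along the path -/
theorem pth_reach {p : ℕ → V} {E : Set (Sym2 V)} {m : ℕ}
    (hE : ∀ i, i < m → s(p i, p (i + 1)) ∈ E) (hne : ∀ i, i < m → p i ≠ p (i + 1)) :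
    ∀ i j, i ≤ j → j ≤ m → (SimpleGraph.fromEdgeSet E).Reachable (p i) (p j) := by
  intro i j hij
  induction j, hij using Nat.le_induction with
  | base => intro _; exact SimpleGraph.Reachable.refl _
  | succ j hij ih =>
    intro hj
    refine (ih (by omega)).trans (SimpleGraph.Adj.reachable ?_)
    rw [SimpleGraph.fromEdgeSet_adj]
    exact ⟨hE j (by omega), hne j (by omega)⟩

theorem forest [Finite V] (T : SimpleGraph V) (hT : T.IsAcyclic) (c d : V) (hcd : c ≠ d)
    (hr : T.Reachable c d) (hc : 4 ≤ (T.neighborSet c).ncard) (hd : 4 ≤ (T.neighborSet d).ncard) :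
    ∃ G₁ G₂ : SimpleGraph V, G₁ ⊓ G₂ = T ∧
      (G₁.edgeSet \ T.edgeSet).ncard = 3 ∧ (G₂.edgeSet \ T.edgeSet).ncard = 3 ∧
      IsLeast {n : ℕ | ∃ D : Drawing (G₁ ⊔ G₂), siocr D = n} 0 ∧ ¬ AdmitsSEFE G₁ G₂ := by
  classical
  obtain ⟨w⟩ := hr
  obtain ⟨P, hP⟩ := w.toPath
  set l := P.length with hl
  let p : ℕ → V := fun i => P.getVert i
  have p0 : p 0 = c := P.getVert_zero
  have pl : p l = d := P.getVert_length
  have hl1 : 1 ≤ l := by
    by_contra h
    have h0 : l = 0 := by omega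
    rw [h0] at pl
    exact hcd (p0.symm.trans pl)
  have hp : ∀ i j, i ≤ l → j ≤ l → p i = p j → i = j := fun i j hi hj h =>
    hP.getVert_injOn hi hj h
  have hadj : ∀ i, i < l → T.Adj (p i) (p (i + 1)) := fun i hi => P.adj_getVert_succ hi
  have pne : ∀ i, i < l → p i ≠ p (i + 1) := fun i hi => (hadj i hi).ne
  -- chords
  have chord : ∀ i j, i < j → j ≤ l → T.Adj (p i) (p j) → j = i + 1 := by
    intro i j hij hj hadj'
    by_contra hne
    refine not_bridge hT (E := pth p l \ {s(p i, p j)}) ?_ hadj' (fun h => h.2 rfl) ?_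
    · rintro e ⟨⟨k, hk, rfl⟩, -⟩
      exact hadj k hk
    · refine pth_reach (m := l) ?_ pne i j hij.le hj
      intro k hk
      refine ⟨⟨k, hk, rfl⟩, ?_⟩
      intro h
      rw [Set.mem_singleton_iff, Sym2.eq_iff] at h
      rcases h with ⟨h1, h2⟩ | ⟨h1, h2⟩
      · have := hp _ _ (by omega) (by omega) h1
        have := hp _ _ (by omega) (by omega) h2
        omega
      · have := hp _ _ (by omega) (by omega) h1
        have := hp _ _ (by omega) (by omega) h2
        omega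
  -- the leaves
  have hfc : (T.neighborSet c).Finite := Set.toFinite _
  have hfd : (T.neighborSet d).Finite := Set.toFinite _
  obtain ⟨a, ha, haN⟩ := exists_three (N := T.neighborSet c \ {p 1}) (hfc.subset Set.sdiff_subset) (by
    have := Set.ncard_le_ncard_sdiff_add_ncard (T.neighborSet c) {p 1}
    rw [Set.ncard_singleton] at this
    omega)
  obtain ⟨b, hb, hbN⟩ := exists_three (N := T.neighborSet d \ {p (l - 1)})
    (hfd.subset Set.sdiff_subset) (by
    have := Set.ncard_le_ncard_sdiff_add_ncard (T.neighborSet d) {p (l - 1)}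
    rw [Set.ncard_singleton] at this
    omega)
  have hca : ∀ i, T.Adj (p 0) (a i) := fun i => by rw [p0]; exact (haN i).1
  have hdb : ∀ i, T.Adj (p l) (b i) := fun i => by rw [pl]; exact (hbN i).1
  have hap : ∀ i j, j ≤ l → a i ≠ p j := by
    intro i j hj h
    have h1 := hca i
    rw [h] at h1
    rcases Nat.eq_zero_or_pos j with rfl | hj0
    · exact h1.ne rfl
    · have := chord 0 j hj0 hj h1
      rw [this] at h
      exact (haN i).2 h
  have hbp : ∀ i j, j ≤ l → b i ≠ p j := by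
    intro i j hj h
    have h1 := hdb i
    rw [h] at h1
    rcases hj.eq_or_lt with rfl | hj0
    · exact h1.ne rfl
    · have := chord j l hj0 le_rfl h1.symm
      refine (hbN i).2 ?_
      rw [Set.mem_singleton_iff, h, this]
      congr 1
  have hab : ∀ i j, a i ≠ b j := by
    intro i j h
    refine not_bridge hT (E := pth p l ∪ {s(p l, b j)}) ?_ (hca i) ?_ ?_
    · rintro e (⟨k, hk, rfl⟩ | he)
      · exact hadj k hk
      · rw [Set.mem_singleton_iff] at he
        rw [he]; exact hdb j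
    · rintro (⟨k, hk, h1⟩ | h1)
      · rw [Sym2.eq_iff] at h1
        rcases h1 with ⟨-, h1⟩ | ⟨-, h1⟩
        · exact hap _ _ (by omega) h1
        · exact hap _ _ (by omega) h1
      · rw [Set.mem_singleton_iff, Sym2.eq_iff] at h1
        rcases h1 with ⟨h1, -⟩ | ⟨h1, -⟩
        · have := hp _ _ (by omega) (by omega) h1; omega
        · exact hbp _ _ (by omega) h1.symm
    · have h1 := pth_reach (E := pth p l ∪ {s(p l, b j)}) (m := l) (fun k hk => Or.inl ⟨k, hk, rfl⟩)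
        pne 0 l (Nat.zero_le _) le_rfl
      refine h1.trans (SimpleGraph.Adj.reachable ?_)
      rw [SimpleGraph.fromEdgeSet_adj, h]
      exact ⟨Or.inr rfl, (hdb j).ne⟩
  have hS : Setup a b p l := ⟨ha, hb, hp, hap, hbp, hab, hl1⟩
  -- the core
  set E₀ : Set (Sym2 V) := spokes (p 0) (p l) a b ∪ pth p l with hE₀
  have hE₀T : E₀ ⊆ T.edgeSet := by
    rintro e ((⟨i, rfl⟩ | ⟨i, rfl⟩) | ⟨i, hi, rfl⟩)
    · exact hca i
    · exact hdb i
    · exact hadj i hi
  have reach0 : ∀ x, Cov E₀ x → (SimpleGraph.fromEdgeSet E₀).Reachable (p 0) x := by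
    have hpr := pth_reach (E := E₀) (m := l) (fun k hk => Or.inr ⟨k, hk, rfl⟩) pne
    have ra : ∀ i, (SimpleGraph.fromEdgeSet E₀).Reachable (p 0) (a i) := by
      intro i
      apply SimpleGraph.Adj.reachable
      rw [SimpleGraph.fromEdgeSet_adj]
      exact ⟨Or.inl (Or.inl ⟨i, rfl⟩), (hca i).ne⟩
    have rb : ∀ i, (SimpleGraph.fromEdgeSet E₀).Reachable (p 0) (b i) := by
      intro i
      refine (hpr 0 l (Nat.zero_le _) le_rfl).trans (SimpleGraph.Adj.reachable ?_)
      rw [SimpleGraph.fromEdgeSet_adj]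
      exact ⟨Or.inl (Or.inr ⟨i, rfl⟩), (hdb i).ne⟩
    rintro x ⟨e, ((⟨i, rfl⟩ | ⟨i, rfl⟩) | ⟨i, hi, rfl⟩), hx⟩
    · rcases Sym2.mem_iff.1 hx with rfl | rfl
      · exact SimpleGraph.Reachable.refl _
      · exact ra i
    · rcases Sym2.mem_iff.1 hx with rfl | rfl
      · exact hpr 0 l (Nat.zero_le _) le_rfl
      · exact rb i
    · rcases Sym2.mem_iff.1 hx with rfl | rfl
      · exact hpr 0 i (Nat.zero_le _) (by omega)
      · exact hpr 0 (i + 1) (Nat.zero_le _) (by omega)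
  have cova : ∀ i, Cov E₀ (a i) := fun i =>
    ⟨_, Or.inl (Or.inl ⟨i, rfl⟩), Sym2.mem_mk_right _ _⟩
  have covb : ∀ i, Cov E₀ (b i) := fun i =>
    ⟨_, Or.inl (Or.inr ⟨i, rfl⟩), Sym2.mem_mk_right _ _⟩
  have hdiag : ∀ E ⊆ T.edgeSet, ∀ e ∈ E, ¬ e.IsDiag := fun E hE e he =>
    T.not_isDiag_of_mem_edgeSet (hE he)
  have hSt : St (fes (T.edgeSet ∪ XX a b)) (fes (T.edgeSet ∪ YY a b)) := by
    refine grow hT (fun E => St (fes (E ∪ XX a b)) (fes (E ∪ YY a b))) (E₀ := E₀) ?_ hE₀T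
      (fun x y hx hy => (reach0 x hx).symm.trans (reach0 y hy)) (broom hS)
    intro E hE0 hE v w hvw hw hQ
    have hcovE : ∀ x, Cov E₀ x → x ≠ w := by
      rintro x ⟨e, he, hx⟩ rfl
      exact hw e (hE0 he) hx
    have hEw : insert s(v, w) E ⊆ T.edgeSet := Set.insert_subset hvw hE
    have common : ∀ Z : Set (Sym2 V), (∀ e ∈ Z, ∃ i j, e = s(a i, b j)) →
        (∀ e ∈ (fes (E ∪ Z)).edgeSet, w ∉ e) ∧
        ∀ e, e ∈ (fes (insert s(v, w) E ∪ Z)).edgeSet ↔ e ∈ (fes (E ∪ Z)).edgeSet ∨ e = s(v, w) := by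
      intro Z hZ
      have d1 := diag_union (hdiag E hE) (Z_diag hS hZ)
      have d2 := diag_union (hdiag _ hEw) (Z_diag hS hZ)
      constructor
      · intro e he
        rw [mem_fes d1] at he
        rcases he with he | he
        · exact hw e he
        · obtain ⟨i, j, rfl⟩ := hZ e he
          intro hmem
          rcases Sym2.mem_iff.1 hmem with h | h
          · exact hcovE _ (cova i) h.symm
          · exact hcovE _ (covb j) h.symm
      · intro e
        rw [mem_fes d1, mem_fes d2, Set.mem_union, Set.mem_union, Set.mem_insert_iff]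
        tauto
    obtain ⟨x1, x2⟩ := common _ XX_form
    obtain ⟨y1, y2⟩ := common _ YY_form
    exact hQ.leaf hvw.ne x1 y1 x2 y2
  have dX := diag_union (hdiag _ subset_rfl) (Z_diag hS XX_form)
  have dY := diag_union (hdiag _ subset_rfl) (Z_diag hS YY_form)
  -- the private edges are not edges of the forest
  have priv : ∀ i j, s(a i, b j) ∉ T.edgeSet := by
    intro i j h
    refine not_bridge hT hE₀T (v := a i) (w := b j) h ?_
      ((reach0 _ (cova i)).symm.trans (reach0 _ (covb j)))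
    rintro ((⟨k, h1⟩ | ⟨k, h1⟩) | ⟨k, hk, h1⟩)
    · rw [Sym2.eq_iff] at h1
      rcases h1 with ⟨h1, -⟩ | ⟨-, h1⟩
      · exact hap _ _ (by omega) h1
      · exact hbp _ _ (by omega) h1
    · rw [Sym2.eq_iff] at h1
      rcases h1 with ⟨h1, -⟩ | ⟨-, h1⟩
      · exact hap _ _ le_rfl h1
      · exact hbp _ _ le_rfl h1
    · rw [Sym2.eq_iff] at h1
      rcases h1 with ⟨h1, -⟩ | ⟨h1, -⟩
      · exact hap _ _ (by omega) h1
      · exact hap _ _ (by omega) h1
  have inj1 : ∀ τ : Fin 3 → Fin 3, Function.Injective fun i => (s(a i, b (τ i)) : Sym2 V) := by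
    intro τ i j hij
    have hij' : (s(a i, b (τ i)) : Sym2 V) = s(a j, b (τ j)) := hij
    rw [Sym2.eq_iff] at hij'
    rcases hij' with ⟨h1, -⟩ | ⟨h1, -⟩
    · exact ha h1
    · exact absurd h1 (hab _ _)
  have card3 : ∀ (Z : Set (Sym2 V)) (τ : Fin 3 → Fin 3),
      (∀ e, e ∈ Z ↔ ∃ i, s(a i, b (τ i)) = e) →
      (∀ e ∈ T.edgeSet ∪ Z, ¬ e.IsDiag) →
      ((fes (T.edgeSet ∪ Z)).edgeSet \ T.edgeSet).ncard = 3 := by
    intro Z τ hZ hd
    have : (fes (T.edgeSet ∪ Z)).edgeSet \ T.edgeSet =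
        Set.range fun i => (s(a i, b (τ i)) : Sym2 V) := by
      ext e
      rw [Set.mem_sdiff, mem_fes hd]
      constructor
      · rintro ⟨h1 | h1, h2⟩
        · exact absurd h1 h2
        · exact (hZ e).1 h1
      · rintro ⟨i, rfl⟩
        exact ⟨Or.inr ((hZ _).2 ⟨i, rfl⟩), priv _ _⟩
    rw [this, ← Set.image_univ, Set.ncard_image_of_injective _ (inj1 τ), Set.ncard_univ]
    simp
  refine ⟨fes (T.edgeSet ∪ XX a b), fes (T.edgeSet ∪ YY a b), ?_, ?_, ?_, siocr_zero hSt, ?_⟩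
  · rw [← SimpleGraph.edgeSet_inj, SimpleGraph.edgeSet_inf]
    ext e
    rw [Set.mem_inter_iff, mem_fes dX, mem_fes dY]
    constructor
    · rintro ⟨h1 | ⟨i, h1⟩, h2 | ⟨j, h2⟩⟩
      · exact h1
      · exact h1
      · exact h2
      · exfalso
        rw [h1, Sym2.eq_iff] at h2
        rcases h2 with ⟨h2, h3⟩ | ⟨h2, -⟩
        · have e1 := ha h2
          have e2 := hb h3
          have e3 : ∀ k : Fin 3, k ≠ k + 1 := by decide
          exact e3 j (e1.symm.trans e2)
        · exact hab _ _ h2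
    · intro h; exact ⟨Or.inl h, Or.inl h⟩
  · exact card3 _ (fun i => i) (fun e => ⟨fun ⟨i, h⟩ => ⟨i, h.symm⟩, fun ⟨i, h⟩ => ⟨i, h.symm⟩⟩) dX
  · exact card3 _ (fun i => i + 1)
      (fun e => ⟨fun ⟨i, h⟩ => ⟨i, h.symm⟩, fun ⟨i, h⟩ => ⟨i, h.symm⟩⟩) dY
  · have mT : ∀ u v : V, T.Adj u v →
        (fes (T.edgeSet ∪ XX a b) ⊓ fes (T.edgeSet ∪ YY a b)).Adj u v := by
      intro u v huv
      exact ⟨(mem_fes dX (e := s(u, v))).2 (Or.inl huv), (mem_fes dY (e := s(u, v))).2 (Or.inl huv)⟩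
    refine no_sefe hS (fun i => mT _ _ (hca i)) (fun i => mT _ _ (hdb i))
      (fun i hi => mT _ _ (hadj i hi)) (fun i => ?_) (fun i => ?_)
    · exact (mem_fes dX (e := s(a i, b i))).2 (Or.inr ⟨i, rfl⟩)
    · exact (mem_fes dY (e := s(a i, b (i + 1)))).2 (Or.inr ⟨i, rfl⟩)

end Pool.Agent.Y857.HT
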