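import Pool.Agent.Y857.HT.Base

/-!
# Adding a leaf to a drawing
-/

set_option autoImplicit false

namespace Pool.Agent.Y857.HT

open Set Complex Topology Filter Pool.Agent.TH510.Sefe

/-- a direction avoiding finitely many directions -/
theorem exists_dir (S : Finset ℂ) (hS : ∀ s ∈ S, s ≠ 0) :
    ∃ u : ℂ, u ≠ 0 ∧ ∀ s ∈ S, ∀ p : ℂ, ∀ t : ℝ, 0 < t → ¬ Ray p s (p + (t : ℂ) * u) := by
  classical
  obtain ⟨τ, hτ⟩ := Infinite.exists_notMem_finset (S.image fun s => s.im / s.re)
  refine ⟨⟨1, τ⟩, fun h => by simpa using congrArg Complex.re h, ?_⟩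
  intro s hs p t ht h
  apply hτ
  rw [Finset.mem_image]
  refine ⟨s, hs, ?_⟩
  have h1 := h.1
  rw [add_sub_cancel_left] at h1
  simp only [Complex.mul_im, Complex.mul_re, Complex.ofReal_re, Complex.ofReal_im,
    Complex.conj_re, Complex.conj_im] at h1
  have h2 : t * (τ * s.re - s.im) = 0 := by nlinarith
  have h3 : τ * s.re - s.im = 0 := (mul_eq_zero.1 h2).resolve_left ht.ne'
  have h4 : s.re ≠ 0 := by
    intro h5
    apply hS s hs
    apply Complex.ext
    · exact h5
    · rw [h5] at h3; simp at h3; simpa using h3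
  field_simp
  linarith

/-- the segment from `p` to `p + d` -/
def seg (p d : ℂ) : Set ℂ := {z | ∃ t : ℝ, 0 ≤ t ∧ t ≤ 1 ∧ z = p + (t : ℂ) * d}

theorem seg_isArc {p d : ℂ} (hd : d ≠ 0) : IsArc (seg p d) p (p + d) := by
  refine ⟨⟨⟨fun t => p + ((t : ℝ) : ℂ) * d, by fun_prop⟩, by simp, by simp⟩, ?_, ?_⟩
  · intro s t hst
    have h1 : p + ((s : ℝ) : ℂ) * d = p + ((t : ℝ) : ℂ) * d := hst
    have h2 := mul_right_cancel₀ hd (add_left_cancel h1)
    exact Subtype.ext (Complex.ofReal_injective h2)
  · ext z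
    constructor
    · rintro ⟨t, rfl⟩
      exact ⟨t, t.2.1, t.2.2, rfl⟩
    · rintro ⟨t, h0, h1, rfl⟩
      exact ⟨⟨t, h0, h1⟩, rfl⟩

theorem leaf {V : Type} [Finite V] {G G' : SimpleGraph V} (D : Drawing G) (hN : Nice D)
    {v w : V} (hvw : v ≠ w) (hw : ∀ x, ¬ G.Adj w x)
    (hG : ∀ e, e ∈ G'.edgeSet ↔ e ∈ G.edgeSet ∨ e = s(v, w)) :
    ∃ D' : Drawing G', Nice D' ∧
      (∀ e ∈ G.edgeSet, ∀ f ∈ G.edgeSet, D'.crossings e f = D.crossings e f) ∧
      ∀ f ∈ G.edgeSet, D'.crossings s(v, w) f = ∅ ∧ D'.crossings f s(v, w) = ∅ := by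
  classical
  obtain ⟨S, hS0, hS⟩ := hN v
  obtain ⟨u, hu0, hu⟩ := exists_dir S hS0
  have hother : ∀ᶠ z in 𝓝 (D.pt v), ∀ x, x ≠ v → z ≠ D.pt x := by
    have : ∀ᶠ z in 𝓝 (D.pt v), ∀ x ∈ {x : V | x ≠ v}, z ≠ D.pt x := by
      rw [eventually_all_finite (Set.toFinite _)]
      intro x hx
      exact isOpen_ne.mem_nhds (fun h => hx (D.pt_inj h).symm)
    exact this
  obtain ⟨ε, hε, hball⟩ := Metric.eventually_nhds_iff.1 (hS.and hother)
  have hun : 0 < ‖u‖ := norm_pos_iff.2 hu0
  set δ : ℝ := ε / (2 * ‖u‖) with hδ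
  have hδ0 : 0 < δ := by positivity
  set d : ℂ := (δ : ℂ) * u with hd
  have hd0 : d ≠ 0 := mul_ne_zero (Complex.ofReal_ne_zero.2 hδ0.ne') hu0
  set q : ℂ := D.pt v + d with hq
  have hdn : ‖d‖ = ε / 2 := by
    rw [hd, norm_mul, Complex.norm_real, Real.norm_of_nonneg hδ0.le, hδ]
    field_simp
  -- facts on the new arc
  have near : ∀ z ∈ seg (D.pt v) d, dist z (D.pt v) < ε := by
    rintro z ⟨t, h0, h1, rfl⟩
    rw [dist_eq_norm, add_sub_cancel_left, norm_mul, Complex.norm_real, Real.norm_of_nonneg h0, hdn]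
    nlinarith
  have F1 : ∀ z ∈ seg (D.pt v) d, ∀ e ∈ G.edgeSet, z ∈ D.arc e → z = D.pt v := by
    intro z hz e he hze
    obtain ⟨s, hs, hr⟩ := (hball (near z hz)).1 e he hze
    obtain ⟨t, h0, h1, rfl⟩ := hz
    rcases h0.eq_or_lt with h0 | h0
    · rw [← h0]; simp
    · exfalso
      refine hu s hs (D.pt v) (t * δ) (by positivity) ?_
      have : D.pt v + ((t * δ : ℝ) : ℂ) * u = D.pt v + (t : ℂ) * d := by
        rw [hd]; push_cast; ring
      rw [this]; exact hr
  have F2 : ∀ x, D.pt x ∈ seg (D.pt v) d → x = v := by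
    intro x hx
    by_contra hne
    exact (hball (near _ hx)).2 x hne rfl
  have hqmem : q ∈ seg (D.pt v) d := ⟨1, zero_le_one, le_rfl, by rw [hq]; simp⟩
  have hqv : q ≠ D.pt v := by
    intro h
    exact hd0 (by simpa [hq] using h)
  have F3 : ∀ x, q ≠ D.pt x := by
    intro x h
    have := F2 x (by rw [← h]; exact hqmem)
    rw [this] at h
    exact hqv h
  have F4 : ∀ e ∈ G.edgeSet, q ∉ D.arc e := fun e he h => hqv (F1 q hqmem e he h)
  have hwe : ∀ e ∈ G.edgeSet, w ∉ e := by
    intro e he hwe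
    obtain ⟨x, rfl⟩ := Sym2.mem_iff_exists.1 hwe
    exact hw x he
  have hne : ∀ e ∈ G.edgeSet, e ≠ s(v, w) := by
    rintro e he rfl
    exact hwe _ he (Sym2.mem_mk_right v w)
  let pt' : V → ℂ := Function.update D.pt w q
  have ptw : pt' w = q := Function.update_self _ _ _
  have ptx : ∀ x, x ≠ w → pt' x = D.pt x := fun x hx => Function.update_of_ne hx _ _
  let arc' : Sym2 V → Set ℂ := fun e => if e = s(v, w) then seg (D.pt v) d else D.arc e
  have arcn : arc' s(v, w) = seg (D.pt v) d := if_pos rfl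
  have arco : ∀ e ∈ G.edgeSet, arc' e = D.arc e := fun e he => if_neg (hne e he)
  have rng : ∀ e ∈ G.edgeSet, ∀ z ∈ D.arc e, (z ∉ Set.range pt' ↔ z ∉ Set.range D.pt) := by
    intro e he z hz
    rw [not_iff_not]
    constructor
    · rintro ⟨x, rfl⟩
      by_cases hx : x = w
      · exfalso
        rw [hx, ptw] at hz
        exact F4 e he hz
      · exact ⟨x, (ptx x hx).symm⟩
    · rintro ⟨x, rfl⟩
      refine ⟨x, ptx x ?_⟩
      rintro rfl
      exact hwe e he (D.avoid e he _ hz)
  have hvmem : D.pt v ∈ Set.range pt' := ⟨v, ptx v hvw⟩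
  have fin1 : ∀ e ∈ G.edgeSet, (seg (D.pt v) d ∩ D.arc e).Finite := fun e he =>
    (Set.finite_singleton (D.pt v)).subset fun z hz => F1 z hz.1 e he hz.2
  let D' : Drawing G' :=
    { pt := pt'
      arc := arc'
      pt_inj := by
        intro x y hxy
        by_cases hx : x = w
        · by_cases hy : y = w
          · rw [hx, hy]
          · rw [hx, ptw, ptx y hy] at hxy
            exact absurd hxy (F3 y)
        · by_cases hy : y = w
          · rw [hy, ptw, ptx x hx] at hxy
            exact absurd hxy.symm (F3 x)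
          · rw [ptx x hx, ptx y hy] at hxy
            exact D.pt_inj hxy
      isArc := by
        intro x y hxy
        rcases (hG s(x, y)).1 hxy with h | h
        · rw [arco _ h, ptx x (fun hx => hwe _ h (hx ▸ Sym2.mem_mk_left x y)),
            ptx y (fun hy => hwe _ h (hy ▸ Sym2.mem_mk_right x y))]
          exact D.isArc x y h
        · rw [h, arcn]
          rw [Sym2.eq_iff] at h
          rcases h with ⟨rfl, rfl⟩ | ⟨rfl, rfl⟩
          · rw [ptx _ hvw, ptw]
            exact seg_isArc hd0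
          · rw [ptx _ hvw, ptw]
            exact isArc_symm (seg_isArc hd0)
      avoid := by
        intro e he x hx
        rcases (hG e).1 he with h | h
        · rw [arco _ h] at hx
          by_cases hxw : x = w
          · rw [hxw, ptw] at hx
            exact absurd hx (F4 e h)
          · rw [ptx x hxw] at hx
            exact D.avoid e h x hx
        · rw [h, arcn] at hx
          rw [h]
          by_cases hxw : x = w
          · rw [hxw]; exact Sym2.mem_mk_right v w
          · rw [ptx x hxw] at hx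
            rw [F2 x hx]; exact Sym2.mem_mk_left v w
      finite := by
        intro e he f hf hef
        rcases (hG e).1 he with h | h <;> rcases (hG f).1 hf with h' | h'
        · rw [arco _ h, arco _ h']; exact D.finite e h f h' hef
        · rw [arco _ h, h', arcn, Set.inter_comm]; exact fin1 e h
        · rw [arco _ h', h, arcn]; exact fin1 f h'
        · exact absurd (h.trans h'.symm) hef
      proper := by
        intro e he f hf hef z hz hzn
        rcases (hG e).1 he with h | h <;> rcases (hG f).1 hf with h' | h'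
        · rw [arco _ h, arco _ h'] at hz ⊢
          exact D.proper e h f h' hef z hz ((rng e h z hz.1).1 hzn)
        · rw [arco _ h, h', arcn] at hz
          exact absurd (by rw [F1 z hz.2 e h hz.1]; exact hvmem) hzn
        · rw [arco _ h', h, arcn] at hz
          exact absurd (by rw [F1 z hz.1 f h' hz.2]; exact hvmem) hzn
        · exact absurd (h.trans h'.symm) hef }
  refine ⟨D', ?_, ?_, ?_⟩
  · intro x
    by_cases hxw : x = w
    · refine ⟨{-u}, by simpa using hu0, ?_⟩
      have h1 : D'.pt x = q := by rw [hxw]; exact ptw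
      rw [h1]
      filter_upwards [eventually_notMem D q G.edgeSet subset_rfl F4] with z hz e he hze
      rcases (hG e).1 he with h | h
      · exact absurd (by rw [← arco _ h]; exact hze) (hz e h)
      · refine ⟨-u, Finset.mem_singleton_self _, ?_⟩
        have hze' : z ∈ seg (D.pt v) d := by rw [← arcn, ← h]; exact hze
        obtain ⟨t, h0, h1, rfl⟩ := hze'
        have : D.pt v + (t : ℂ) * d = q + (((1 - t) * δ : ℝ) : ℂ) * (-u) := by
          rw [hq, hd]; push_cast; ring
        rw [this]
        exact ray_smul (mul_nonneg (by linarith) hδ0.le)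
    · have h1 : D'.pt x = D.pt x := ptx x hxw
      rw [h1]
      by_cases hxv : x = v
      · rw [hxv]
        refine ⟨insert u S, ?_, ?_⟩
        · intro s hs
          rcases Finset.mem_insert.1 hs with rfl | hs
          · exact hu0
          · exact hS0 s hs
        · filter_upwards [hS] with z hz e he hze
          rcases (hG e).1 he with h | h
          · obtain ⟨s, hs, hr⟩ := hz e h (by rw [← arco _ h]; exact hze)
            exact ⟨s, Finset.mem_insert_of_mem hs, hr⟩
          · refine ⟨u, Finset.mem_insert_self _ _, ?_⟩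
            have hze' : z ∈ seg (D.pt v) d := by rw [← arcn, ← h]; exact hze
            obtain ⟨t, h0, h1, rfl⟩ := hze'
            have : D.pt v + (t : ℂ) * d = D.pt v + ((t * δ : ℝ) : ℂ) * u := by
              rw [hd]; push_cast; ring
            rw [this]
            exact ray_smul (mul_nonneg h0 hδ0.le)
      · obtain ⟨S', hS'0, hS'⟩ := hN x
        refine ⟨S', hS'0, ?_⟩
        have hcl : ∀ᶠ z in 𝓝 (D.pt x), z ∉ seg (D.pt v) d :=
          (isArc_compact (seg_isArc (p := D.pt v) hd0)).isClosed.isOpen_compl.mem_nhds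
            (fun h => hxv (F2 x h))
        filter_upwards [hS', hcl] with z hz hz2 e he hze
        rcases (hG e).1 he with h | h
        · exact hz e h (by rw [← arco _ h]; exact hze)
        · exact absurd (by rw [← arcn, ← h]; exact hze) hz2
  · intro e he f hf
    ext z
    change (z ∈ arc' e ∩ arc' f ∧ z ∉ Set.range pt') ↔ (z ∈ D.arc e ∩ D.arc f ∧ z ∉ Set.range D.pt)
    rw [arco _ he, arco _ hf]
    constructor
    · rintro ⟨h1, h2⟩
      exact ⟨h1, (rng e he z h1.1).1 h2⟩
    · rintro ⟨h1, h2⟩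
      exact ⟨h1, (rng e he z h1.1).2 h2⟩
  · intro f hf
    constructor
    · rw [Set.eq_empty_iff_forall_notMem]
      intro z hz
      change z ∈ arc' s(v, w) ∩ arc' f ∧ z ∉ Set.range pt' at hz
      rw [arcn, arco _ hf] at hz
      exact hz.2 (by rw [F1 z hz.1.1 f hf hz.1.2]; exact hvmem)
    · rw [Set.eq_empty_iff_forall_notMem]
      intro z hz
      change z ∈ arc' f ∩ arc' s(v, w) ∧ z ∉ Set.range pt' at hz
      rw [arcn, arco _ hf] at hz
      exact hz.2 (by rw [F1 z hz.1.2 f hf hz.1.1]; exact hvmem)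

end Pool.Agent.Y857.HT
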