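import Pool.Agent.Y857.HT.Stage
import Pool.Agent.TH510.Sefe.Graphs

/-!
# No simultaneous embedding
-/

set_option autoImplicit false

namespace Pool.Agent.Y857.HT

open Set Complex Topology Filter Pool.Agent.TH510.Sefe Pool.Agent.H858R3.Lift
  Pool.Agent.H858R3.Cross
open Pool.Agent.H858R3.Poly (arc_append)

variable {V : Type} {G : SimpleGraph V}

theorem disj0 (D : Drawing G) (hP : D.Planar) {e f : Sym2 V} (he : e ∈ G.edgeSet)
    (hf : f ∈ G.edgeSet) (hw : ∀ w, w ∈ e → w ∈ f → False) {z : ℂ} (h1 : z ∈ D.arc e)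
    (h2 : z ∈ D.arc f) : False := by
  have hef : e ≠ f := by
    rintro rfl
    induction e with
    | _ u v => exact hw u (Sym2.mem_mk_left u v) (Sym2.mem_mk_left u v)
  obtain ⟨w, a, b, -⟩ := D.meet hP he hf hef h1 h2
  exact hw w a b

theorem one0 (D : Drawing G) (hP : D.Planar) {e f : Sym2 V} (he : e ∈ G.edgeSet)
    (hf : f ∈ G.edgeSet) (hef : e ≠ f) {c : V} (hw : ∀ w, w ∈ e → w ∈ f → w = c) {z : ℂ}
    (h1 : z ∈ D.arc e) (h2 : z ∈ D.arc f) : z = D.pt c := by
  obtain ⟨w, a, b, h⟩ := D.meet hP he hf hef h1 h2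
  rw [h, hw w a b]

/-- the points of the drawing of the path -/
def WW (D : Drawing G) (p : ℕ → V) (l : ℕ) : Set ℂ :=
  {z | ∃ i, i < l ∧ z ∈ D.arc s(p i, p (i + 1))}

theorem chain (D : Drawing G) (hP : D.Planar) {p : ℕ → V} {l : ℕ}
    (hp : ∀ i j, i ≤ l → j ≤ l → p i = p j → i = j)
    (hadj : ∀ i, i < l → G.Adj (p i) (p (i + 1))) (k : ℕ) : 1 ≤ k → k ≤ l →
    ∃ γ : Path (D.pt (p 0)) (D.pt (p k)), Function.Injective γ ∧ Set.range γ = WW D p k := by
  induction k with
  | zero => intro h; omega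
  | succ k ih =>
    intro h1 h2
    rcases Nat.eq_zero_or_pos k with rfl | hk
    · obtain ⟨γ, g1, g2⟩ := D.isArc _ _ (hadj 0 (by omega))
      refine ⟨γ, g1, ?_⟩
      rw [g2]
      ext z
      constructor
      · intro hz; exact ⟨0, by omega, hz⟩
      · rintro ⟨i, hi, hz⟩
        obtain rfl : i = 0 := by omega
        exact hz
    · have h3 := ih hk (by omega)
      obtain ⟨γ, g1, g2⟩ := arc_append h3 (D.isArc _ _ (hadj k (by omega))) (by
        rintro z ⟨⟨i, hi, hz⟩, hz2⟩
        refine one0 D hP (hadj i (by omega)) (hadj k (by omega)) ?_ ?_ hz hz2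
        · intro h
          rw [Sym2.eq_iff] at h
          rcases h with ⟨h, -⟩ | ⟨h, -⟩
          · have := hp _ _ (by omega) (by omega) h; omega
          · have := hp _ _ (by omega) (by omega) h; omega
        · intro w hw1 hw2
          rw [Sym2.mem_iff] at hw1 hw2
          rcases hw2 with hw2 | hw2
          · exact hw2
          · exfalso
            rcases hw1 with hw1 | hw1
            · have := hp _ _ (by omega) (by omega) (hw1.symm.trans hw2); omega
            · have := hp _ _ (by omega) (by omega) (hw1.symm.trans hw2); omega)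
      refine ⟨γ, g1, ?_⟩
      rw [g2]
      ext z
      constructor
      · rintro (⟨i, hi, hz⟩ | hz)
        · exact ⟨i, by omega, hz⟩
        · exact ⟨k, by omega, hz⟩
      · rintro ⟨i, hi, hz⟩
        rcases Nat.lt_or_ge i k with h | h
        · exact Or.inl ⟨i, h, hz⟩
        · obtain rfl : i = k := by omega
          exact Or.inr hz

theorem halves {x y : ℂ} (Γ : Path x y) (hΓ : Function.Injective Γ) :
    ∃ (z : ℂ) (A : Path x z) (B : Path y z), Function.Injective A ∧ Function.Injective B ∧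
      (∀ t, A t ∈ Set.range Γ ∧ A t ≠ y) ∧ ∀ t, B t ∈ Set.range Γ ∧ B t ≠ x := by
  have m1 : ∀ t : unitInterval, (t : ℝ) / 2 ∈ Icc (0 : ℝ) 1 := fun t => by
    have := t.2.1; have := t.2.2; constructor <;> linarith
  have m2 : ∀ t : unitInterval, 1 - (t : ℝ) / 2 ∈ Icc (0 : ℝ) 1 := fun t => by
    have := t.2.1; have := t.2.2; constructor <;> linarith
  have c1 : Continuous fun t : unitInterval => Γ ⟨(t : ℝ) / 2, m1 t⟩ :=
    Γ.continuous.comp (Continuous.subtype_mk (by fun_prop) _)
  have c2 : Continuous fun t : unitInterval => Γ ⟨1 - (t : ℝ) / 2, m2 t⟩ :=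
    Γ.continuous.comp (Continuous.subtype_mk (by fun_prop) _)
  refine ⟨Γ ⟨1 / 2, by norm_num, by norm_num⟩, ⟨⟨_, c1⟩, ?_, ?_⟩, ⟨⟨_, c2⟩, ?_, ?_⟩, ?_, ?_, ?_, ?_⟩
  · have : (⟨((0 : unitInterval) : ℝ) / 2, m1 0⟩ : unitInterval) = 0 := Subtype.ext (by simp)
    simp only [this, Γ.source]
  · simp only
    congr 1
  · have : (⟨1 - ((0 : unitInterval) : ℝ) / 2, m2 0⟩ : unitInterval) = 1 := Subtype.ext (by simp)
    simp only [this, Γ.target]
  · simp only
    congr 1
    exact Subtype.ext (by norm_num)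
  · intro s t hst
    have h1 := congrArg Subtype.val (hΓ hst)
    simp only at h1
    exact Subtype.ext (by linarith)
  · intro s t hst
    have h1 := congrArg Subtype.val (hΓ hst)
    simp only at h1
    exact Subtype.ext (by linarith)
  · intro t
    refine ⟨⟨_, rfl⟩, ?_⟩
    intro h
    have h' : Γ ⟨(t : ℝ) / 2, m1 t⟩ = Γ 1 := by rw [Γ.target]; exact h
    have h1 := congrArg Subtype.val (hΓ h')
    have h2 : ((1 : unitInterval) : ℝ) = 1 := rfl
    rw [h2] at h1
    have := t.2.2
    simp only at h1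
    linarith
  · intro t
    refine ⟨⟨_, rfl⟩, ?_⟩
    intro h
    have h' : Γ ⟨1 - (t : ℝ) / 2, m2 t⟩ = Γ 0 := by rw [Γ.source]; exact h
    have h1 := congrArg Subtype.val (hΓ h')
    have h2 : ((0 : unitInterval) : ℝ) = 0 := rfl
    rw [h2] at h1
    have := t.2.2
    simp only at h1
    linarith

theorem ex_ne {x y : ℂ} {γ : Path x y} (hγ : Function.Injective γ) : x ≠ y := by
  intro h
  have : γ 0 = γ 1 := by rw [γ.source, γ.target]; exact h
  have := hγ this
  exact zero_ne_one this

theorem tr_one_eq {x y : ℂ} (γ : Path x y) : tr (ex γ) 1 = ex γ := by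
  funext t
  unfold tr ex
  rw [one_mul]
  rcases le_or_gt t 0 with h | h
  · have : max 0 (min t 1) = 0 := by rw [max_eq_left]; exact (min_le_left _ _).trans h
    rw [this, γ.extend_zero, γ.extend_of_le_zero h]
  · rcases le_or_gt t 1 with h1 | h1
    · have : max 0 (min t 1) = t := by rw [min_eq_left h1, max_eq_right h.le]
      rw [this]
    · have : max 0 (min t 1) = 1 := by rw [min_eq_right h1.le, max_eq_right zero_le_one]
      rw [this, γ.extend_one, γ.extend_of_one_le h1.le]

/-- two paths of length three and a third path between the same two vertices -/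
theorem orient2 (D : Drawing G) (hP : D.Planar) {c d : V} {a v : Fin 2 → V}
    (hca : ∀ i, G.Adj c (a i)) (hav : ∀ i, G.Adj (a i) (v i)) (hdv : ∀ i, G.Adj d (v i))
    (hcd : c ≠ d) (ha : Function.Injective a) (hv : Function.Injective v)
    (hcv : ∀ i, c ≠ v i) (hda : ∀ i, d ≠ a i) (hab : ∀ i j, a i ≠ v j)
    (P : ∀ i, Path (D.pt c) (D.pt (a i))) (hPi : ∀ i, Function.Injective (P i))
    (hPr : ∀ i, Set.range (P i) = D.arc s(c, a i))
    (Q : ∀ i, Path (D.pt d) (D.pt (v i)))
    (hQr : ∀ i, Set.range (Q i) = D.arc s(d, v i))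
    {W : Set ℂ} (hW1 : ∀ i, ∀ z ∈ W, z ∈ D.arc s(c, a i) → z = D.pt c)
    (hW2 : ∀ i, ∀ z ∈ W, z ∈ D.arc s(a i, v i) → False)
    (hW3 : ∀ i, ∀ z ∈ W, z ∈ D.arc s(d, v i) → z = D.pt d)
    {z₀ : ℂ} (A : Path (D.pt c) z₀) (B : Path (D.pt d) z₀) (hAi : Function.Injective A)
    (hA : ∀ t, A t ∈ W ∧ A t ≠ D.pt d) (hB : ∀ t, B t ∈ W ∧ B t ≠ D.pt c) :
    S (ex (P 0)) (ex (P 1)) (ex A) = - S (ex (Q 0)) (ex (Q 1)) (ex B) := by
  have hR : ∀ i, ∃ γ : Path (D.pt (a i)) (D.pt (v i)), Function.Injective γ ∧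
      Set.range γ = D.arc s(a i, v i) := fun i => D.isArc _ _ (hav i)
  choose R hRi hRr using hR
  have mca : ∀ i, (s(c, a i) : Sym2 V) ∈ G.edgeSet := hca
  have mav : ∀ i, (s(a i, v i) : Sym2 V) ∈ G.edgeSet := hav
  have mdv : ∀ i, (s(d, v i) : Sym2 V) ∈ G.edgeSet := hdv
  have key : ∀ i t, ex ((P i).trans (R i)) t ∈ D.arc s(c, a i) ∨
      ex ((P i).trans (R i)) t ∈ D.arc s(a i, v i) := by
    intro i t
    have := ex_mem ((P i).trans (R i)) t
    rw [Path.trans_range, hPr, hRr] at this
    exact this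
  have kA : ∀ t, ex A t ∈ W ∧ ex A t ≠ D.pt d := by
    intro t
    obtain ⟨s, hs⟩ := ex_mem A t
    rw [← hs]; exact hA s
  have kB : ∀ t, ex B t ∈ W ∧ ex B t ≠ D.pt c := by
    intro t
    obtain ⟨s, hs⟩ := ex_mem B t
    rw [← hs]; exact hB s
  have kQ : ∀ i t, ex (Q i) t ∈ D.arc s(d, v i) := by
    intro i t
    rw [← hQr]; exact ex_mem _ _
  have aca : ∀ i, c ≠ a i := fun i h => (hca i).ne h
  have adv : ∀ i, d ≠ v i := fun i h => (hdv i).ne h
  have cor : ∀ i j, i ≠ j → ∀ z, (z ∈ D.arc s(c, a i) ∨ z ∈ D.arc s(a i, v i)) →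
      (z ∈ D.arc s(c, a j) ∨ z ∈ D.arc s(a j, v j)) → z = D.pt c := by
    intro i j hij z hi hj
    have haij : a i ≠ a j := fun h => hij (ha h)
    have hvij : v i ≠ v j := fun h => hij (hv h)
    rcases hi with hi | hi <;> rcases hj with hj | hj
    · refine one0 D hP (mca i) (mca j) ?_ ?_ hi hj
      · intro h
        rw [Sym2.eq_iff] at h
        rcases h with ⟨-, h⟩ | ⟨h, -⟩
        · exact haij h
        · exact aca j h
      · intro w h1 h2
        rw [Sym2.mem_iff] at h1 h2
        rcases h1 with h1 | h1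
        · exact h1
        · rcases h2 with h2 | h2
          · exact h2
          · exact absurd (h1.symm.trans h2) haij
    · exfalso
      refine disj0 D hP (mca i) (mav j) ?_ hi hj
      intro w h1 h2
      rw [Sym2.mem_iff] at h1 h2
      rcases h1 with h1 | h1 <;> rcases h2 with h2 | h2
      · exact aca j (h1.symm.trans h2)
      · exact hcv j (h1.symm.trans h2)
      · exact haij (h1.symm.trans h2)
      · exact hab i j (h1.symm.trans h2)
    · exfalso
      refine disj0 D hP (mav i) (mca j) ?_ hi hj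
      intro w h1 h2
      rw [Sym2.mem_iff] at h1 h2
      rcases h1 with h1 | h1 <;> rcases h2 with h2 | h2
      · exact aca i (h2.symm.trans h1)
      · exact haij (h1.symm.trans h2)
      · exact hcv i (h2.symm.trans h1)
      · exact hab j i (h2.symm.trans h1)
    · exfalso
      refine disj0 D hP (mav i) (mav j) ?_ hi hj
      intro w h1 h2
      rw [Sym2.mem_iff] at h1 h2
      rcases h1 with h1 | h1 <;> rcases h2 with h2 | h2
      · exact haij (h1.symm.trans h2)
      · exact hab i j (h1.symm.trans h2)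
      · exact hab j i (h2.symm.trans h1)
      · exact hvij (h1.symm.trans h2)
  have hnc : ∀ i, D.pt c ∉ D.arc s(a i, v i) := by
    intro i h
    have := D.avoid _ (mav i) c h
    rw [Sym2.mem_iff] at this
    rcases this with h | h
    · exact aca i h
    · exact hcv i h
  have src : ∀ i t, ex ((P i).trans (R i)) t = D.pt c → t ≤ 0 := by
    intro i t h
    by_contra hcon
    push Not at hcon
    by_cases h1 : t ≤ 1 / 2
    · have e1 : (((P i).trans (R i)).extend t) = (P i).extend (2 * t) := by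
        rw [((P i).trans (R i)).extend_apply ⟨hcon.le, by linarith⟩, Path.trans_apply,
          dif_pos h1, (P i).extend_apply ⟨by linarith, by linarith⟩]
      have e2 : ex (P i) (2 * t) = D.pt c := e1.symm.trans h
      have := ex_source (hPi i) (fun h => aca i (D.pt_inj h)) e2
      linarith
    · push Not at h1
      have h2 : ex ((P i).trans (R i)) t ∈ Set.range (R i) := by
        rcases le_or_gt t 1 with h3 | h3
        · have e1 : ((P i).trans (R i)).extend t = (R i).extend (2 * t - 1) := by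
            rw [((P i).trans (R i)).extend_apply ⟨hcon.le, h3⟩, Path.trans_apply,
              dif_neg (not_le.2 h1), (R i).extend_apply ⟨by linarith, by linarith⟩]
          show ((P i).trans (R i)).extend t ∈ _
          rw [e1]; exact ex_mem (R i) _
        · show ((P i).trans (R i)).extend t ∈ _
          rw [Path.extend_of_one_le _ h3.le]
          exact ⟨1, (R i).target⟩
      rw [h, hRr] at h2
      exact hnc i h2
  have srcA : ∀ t, ex A t = D.pt c → t ≤ 0 := fun t h => ex_source hAi (ex_ne hAi) h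
  have corE : Cor (ex ((P 0).trans (R 0))) (ex ((P 1).trans (R 1))) := by
    intro s t hst
    have h1 := cor 0 1 (by decide) _ (key 0 s) (by rw [hst]; exact key 1 t)
    exact ⟨src 0 s h1, src 1 t (by rw [← hst]; exact h1)⟩
  have corA : ∀ i, Cor (ex ((P i).trans (R i))) (ex A) := by
    intro i s t hst
    have h0 := (kA t).1
    have h1 : ex A t = D.pt c := by
      rcases key i s with h | h
      · rw [hst] at h; exact hW1 i _ h0 h
      · rw [hst] at h; exact absurd h (hW2 i _ h0)
    exact ⟨src i s (hst.trans h1), srcA t h1⟩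
  have dis : ∀ i j, i ≠ j → ∀ s t, ex ((P i).trans (R i)) s ≠ ex (Q j) t := by
    intro i j hij s t hst
    have haij : a i ≠ a j := fun h => hij (ha h)
    have hvij : v i ≠ v j := fun h => hij (hv h)
    have h2 : ex ((P i).trans (R i)) s ∈ D.arc s(d, v j) := by
      rw [hst]; exact kQ j t
    rcases key i s with h1 | h1
    · refine disj0 D hP (mca i) (mdv j) ?_ h1 h2
      intro w h3 h4
      rw [Sym2.mem_iff] at h3 h4
      rcases h3 with h3 | h3 <;> rcases h4 with h4 | h4
      · exact hcd (h3.symm.trans h4)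
      · exact hcv j (h3.symm.trans h4)
      · exact hda i (h4.symm.trans h3)
      · exact hab i j (h3.symm.trans h4)
    · refine disj0 D hP (mav i) (mdv j) ?_ h1 h2
      intro w h3 h4
      rw [Sym2.mem_iff] at h3 h4
      rcases h3 with h3 | h3 <;> rcases h4 with h4 | h4
      · exact hda i (h4.symm.trans h3)
      · exact hab i j (h3.symm.trans h4)
      · exact adv i (h4.symm.trans h3)
      · exact hvij (h3.symm.trans h4)
  have disB : ∀ i, ∀ s t, ex ((P i).trans (R i)) s ≠ ex B t := by
    intro i s t hst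
    have h0 := kB t
    rcases key i s with h | h
    · rw [hst] at h
      exact h0.2 (hW1 i _ h0.1 h)
    · rw [hst] at h
      exact hW2 i _ h0.1 h
  have disA : ∀ j, ∀ s t, ex A s ≠ ex (Q j) t := by
    intro j s t hst
    have h0 := kA s
    have h1 : ex A s ∈ D.arc s(d, v j) := by rw [hst]; exact kQ j t
    exact h0.2 (hW3 j _ h0.1 h1)
  have ce : ∀ i, Continuous (ex ((P i).trans (R i))) := fun i => Path.continuous_extend _
  have cf : ∀ i, Continuous (ex (Q i)) := fun i => Path.continuous_extend _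
  have cA : Continuous (ex A) := Path.continuous_extend _
  have cB : Continuous (ex B) := Path.continuous_extend _
  have e0 : ∀ i, ex ((P i).trans (R i)) 0 = D.pt c := fun i => Path.extend_zero _
  have f0 : ∀ i, ex (Q i) 0 = D.pt d := fun i => Path.extend_zero _
  have e1 : ∀ i, ex ((P i).trans (R i)) 1 = D.pt (v i) := fun i => Path.extend_one _
  have f1 : ∀ i, ex (Q i) 1 = D.pt (v i) := fun i => Path.extend_one _
  have A0 : ex A 0 = D.pt c := Path.extend_zero _
  have B0 : ex B 0 = D.pt d := Path.extend_zero _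
  have A1 : ex A 1 = z₀ := Path.extend_one _
  have B1 : ex B 1 = z₀ := Path.extend_one _
  have k1 := theta (ce 0) (ce 1) cA (cf 0) (cf 1) cB ((e0 0).trans (e0 1).symm)
    ((e0 0).trans A0.symm) ((f0 0).trans (f0 1).symm) ((f0 0).trans B0.symm)
    ((e1 0).trans (f1 0).symm) ((e1 1).trans (f1 1).symm) (A1.trans B1.symm)
    (dis 0 1 (by decide)) (disB 0) (dis 1 0 (by decide)) (disB 1) (disA 0) (disA 1)
  rw [← k1, ← S_tr (ce 0) (ce 1) cA ((e0 0).trans (e0 1).symm) ((e0 0).trans A0.symm)
    corE (corA 1) (corA 0).symm (a := 1 / 2) (b := 1 / 2) (c := 1)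
    (by norm_num) (by norm_num) (by norm_num) (by norm_num) (by norm_num) (by norm_num),
    tr_trans, tr_trans, tr_one_eq]

end Pool.Agent.Y857.HT
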