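import Pool.Agent.Y857.HT.NoSefe

/-!
# No simultaneous embedding of the two graphs
-/

set_option autoImplicit false

namespace Pool.Agent.Y857.HT

open Set Complex Topology Filter Pool.Agent.TH510.Sefe Pool.Agent.H858R3.Lift
  Pool.Agent.H858R3.Cross

variable {V : Type} {G : SimpleGraph V} {a b : Fin 3 → V} {p : ℕ → V} {l : ℕ}

/-- the orientation lemma for two of the three paths, in one of the two planar drawings -/
theorem orientG (D : Drawing G) (hP : D.Planar) (h : Setup a b p l) (β : Fin 3 → V)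
    (hβ : Function.Injective β) (hβb : ∀ i, ∃ j, β i = b j)
    (hca : ∀ i, G.Adj (p 0) (a i)) (haβ : ∀ i, G.Adj (a i) (β i)) (hdβ : ∀ i, G.Adj (p l) (β i))
    (hadj : ∀ i, i < l → G.Adj (p i) (p (i + 1)))
    (P : ∀ i, Path (D.pt (p 0)) (D.pt (a i))) (hPi : ∀ i, Function.Injective (P i))
    (hPr : ∀ i, Set.range (P i) = D.arc s(p 0, a i))
    (Q : ∀ i, Path (D.pt (p l)) (D.pt (β i)))
    (hQr : ∀ i, Set.range (Q i) = D.arc s(p l, β i))
    {z₀ : ℂ} (A : Path (D.pt (p 0)) z₀) (B : Path (D.pt (p l)) z₀) (hAi : Function.Injective A)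
    (hA : ∀ t, A t ∈ WW D p l ∧ A t ≠ D.pt (p l)) (hB : ∀ t, B t ∈ WW D p l ∧ B t ≠ D.pt (p 0))
    {i j : Fin 3} (hij : i ≠ j) :
    S (ex (P i)) (ex (P j)) (ex A) = - S (ex (Q i)) (ex (Q j)) (ex B) := by
  have hl := h.hl
  have hβp : ∀ i j, j ≤ l → β i ≠ p j := by
    intro i j hj
    obtain ⟨k, hk⟩ := hβb i
    rw [hk]; exact h.hbp k j hj
  have haβn : ∀ i j, a i ≠ β j := by
    intro i j
    obtain ⟨k, hk⟩ := hβb j
    rw [hk]; exact h.hab i k
  have hcd : p 0 ≠ p l := fun h' => by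
    have := h.hp _ _ (by omega) (by omega) h'; omega
  let t : Fin 2 → Fin 3 := ![i, j]
  have ht : Function.Injective t := by
    intro x y hxy
    fin_cases x <;> fin_cases y <;> simp [t] at hxy ⊢
    · exact hij hxy
    · exact hij hxy.symm
  refine orient2 D hP (c := p 0) (d := p l) (a := fun x => a (t x)) (v := fun x => β (t x))
    (fun x => hca _) (fun x => haβ _) (fun x => hdβ _) hcd (h.ha.comp ht) (hβ.comp ht)
    (fun x => (hβp _ 0 (by omega)).symm) (fun x => (h.hap _ l le_rfl).symm)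
    (fun x y => haβn _ _) (fun x => P (t x)) (fun x => hPi _) (fun x => hPr _)
    (fun x => Q (t x)) (fun x => hQr _) (W := WW D p l) ?_ ?_ ?_ A B hAi hA hB
  · rintro x z ⟨k, hk, hz⟩ hz2
    have hne : s(p k, p (k + 1)) ≠ s(p 0, a (t x)) := by
      intro h'
      rw [Sym2.eq_iff] at h'
      rcases h' with ⟨-, h'⟩ | ⟨h', -⟩
      · exact h.hap _ _ (by omega) h'.symm
      · exact h.hap _ _ (by omega) h'.symm
    refine one0 D hP (hadj k hk) (hca _) hne ?_ hz hz2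
    intro w h1 h2
    rw [Sym2.mem_iff] at h1 h2
    rcases h2 with h2 | h2
    · exact h2
    · exfalso
      rcases h1 with h1 | h1
      · exact h.hap _ _ (by omega) (h2.symm.trans h1)
      · exact h.hap _ _ (by omega) (h2.symm.trans h1)
  · rintro x z ⟨k, hk, hz⟩ hz2
    refine disj0 D hP (hadj k hk) (haβ _) ?_ hz hz2
    intro w h1 h2
    rw [Sym2.mem_iff] at h1 h2
    rcases h1 with h1 | h1 <;> rcases h2 with h2 | h2
    · exact h.hap _ _ (by omega) (h2.symm.trans h1)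
    · exact hβp _ _ (by omega) (h2.symm.trans h1)
    · exact h.hap _ _ (by omega) (h2.symm.trans h1)
    · exact hβp _ _ (by omega) (h2.symm.trans h1)
  · rintro x z ⟨k, hk, hz⟩ hz2
    have hne : s(p k, p (k + 1)) ≠ s(p l, β (t x)) := by
      intro h'
      rw [Sym2.eq_iff] at h'
      rcases h' with ⟨-, h'⟩ | ⟨h', -⟩
      · exact hβp _ _ (by omega) h'.symm
      · exact hβp _ _ (by omega) h'.symm
    refine one0 D hP (hadj k hk) (hdβ _) hne ?_ hz hz2
    intro w h1 h2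
    rw [Sym2.mem_iff] at h1 h2
    rcases h2 with h2 | h2
    · exact h2
    · exfalso
      rcases h1 with h1 | h1
      · exact hβp _ _ (by omega) (h2.symm.trans h1)
      · exact hβp _ _ (by omega) (h2.symm.trans h1)

theorem no_sefe {G₁ G₂ : SimpleGraph V} (h : Setup a b p l)
    (hca : ∀ i, (G₁ ⊓ G₂).Adj (p 0) (a i)) (hdb : ∀ i, (G₁ ⊓ G₂).Adj (p l) (b i))
    (hadj : ∀ i, i < l → (G₁ ⊓ G₂).Adj (p i) (p (i + 1)))
    (h1 : ∀ i, G₁.Adj (a i) (b i)) (h2 : ∀ i, G₂.Adj (a i) (b (i + 1))) :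
    ¬ AdmitsSEFE G₁ G₂ := by
  rintro ⟨D₁, D₂, hP₁, hP₂, hpt, harc⟩
  have hl := h.hl
  obtain ⟨pt₂, arc₂, inj₂, isArc₂, avoid₂, finite₂, proper₂⟩ := D₂
  have hpt' : D₁.pt = pt₂ := funext hpt
  subst hpt'
  have hP : ∀ i : Fin 3, ∃ γ : Path (D₁.pt (p 0)) (D₁.pt (a i)), Function.Injective γ ∧
      Set.range γ = D₁.arc s(p 0, a i) := fun i => D₁.isArc _ _ (hca i).1
  have hQ : ∀ i : Fin 3, ∃ γ : Path (D₁.pt (p l)) (D₁.pt (b i)), Function.Injective γ ∧
      Set.range γ = D₁.arc s(p l, b i) := fun i => D₁.isArc _ _ (hdb i).1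
  choose P hPi hPr using hP
  choose Q hQi hQr using hQ
  obtain ⟨Γ, hΓ, hΓr⟩ := chain D₁ hP₁ h.hp (fun i hi => (hadj i hi).1) l hl le_rfl
  obtain ⟨z₀, A, B, hAi, hBi, hA, hB⟩ := halves Γ hΓ
  rw [hΓr] at hA hB
  -- the same in the second drawing
  let D₂' : Drawing G₂ := ⟨D₁.pt, arc₂, inj₂, isArc₂, avoid₂, finite₂, proper₂⟩
  have hWW : WW D₂' p l = WW D₁ p l := by
    ext z
    constructor
    · rintro ⟨i, hi, hz⟩
      refine ⟨i, hi, ?_⟩
      rw [harc _ (hadj i hi)]; exact hz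
    · rintro ⟨i, hi, hz⟩
      refine ⟨i, hi, ?_⟩
      rw [harc _ (hadj i hi)] at hz; exact hz
  have o1 : ∀ i j : Fin 3, i ≠ j → S (ex (P i)) (ex (P j)) (ex A) =
      - S (ex (Q i)) (ex (Q j)) (ex B) := fun i j hij =>
    orientG D₁ hP₁ h b h.hb (fun i => ⟨i, rfl⟩) (fun i => (hca i).1) h1 (fun i => (hdb i).1)
      (fun i hi => (hadj i hi).1) P hPi hPr Q hQr A B hAi hA hB hij
  have o2 : ∀ i j : Fin 3, i ≠ j → S (ex (P i)) (ex (P j)) (ex A) =
      - S (ex (Q (i + 1))) (ex (Q (j + 1))) (ex B) := fun i j hij =>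
    orientG D₂' hP₂ h (fun i => b (i + 1)) (h.hb.comp (add_left_injective 1))
      (fun i => ⟨i + 1, rfl⟩) (fun i => (hca i).2) h2 (fun i => (hdb _).2)
      (fun i hi => (hadj i hi).2) P hPi (fun i => (hPr i).trans (harc _ (hca i)))
      (fun i => Q (i + 1)) (fun i => (hQr _).trans (harc _ (hdb _))) A B hAi
      (by rw [hWW]; exact hA) (by rw [hWW]; exact hB) hij
  have r1 : S (ex (Q 0)) (ex (Q 1)) (ex B) = S (ex (Q 1)) (ex (Q 2)) (ex B) :=
    neg_injective ((o1 0 1 (by decide)).symm.trans (o2 0 1 (by decide)))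
  have r2 : S (ex (Q 1)) (ex (Q 2)) (ex B) = S (ex (Q 2)) (ex (Q 0)) (ex B) :=
    neg_injective ((o1 1 2 (by decide)).symm.trans (o2 1 2 (by decide)))
  have r3 : S (ex (Q 0)) (ex (Q 2)) (ex B) = - S (ex (Q 2)) (ex (Q 0)) (ex B) := by
    rw [← S_rot, S_swap]
  have r4 := S_cocycle (ex (Q 0)) (ex (Q 1)) (ex (Q 2)) (ex B)
  have hdb' : ∀ i, p l ≠ b i := fun i => (h.hbp i l le_rfl).symm
  have cor : ∀ i j, i ≠ j → Cor (ex (Q i)) (ex (Q j)) := by
    intro i j hij s t hst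
    have hi : ex (Q i) s ∈ D₁.arc s(p l, b i) := by rw [← hQr]; exact ex_mem _ _
    have hj : ex (Q i) s ∈ D₁.arc s(p l, b j) := by rw [hst, ← hQr]; exact ex_mem _ _
    have h3 : ex (Q i) s = D₁.pt (p l) := by
      refine one0 D₁ hP₁ (hdb i).1 (hdb j).1 ?_ ?_ hi hj
      · intro h'
        rw [Sym2.eq_iff] at h'
        rcases h' with ⟨-, h'⟩ | ⟨h', -⟩
        · exact hij (h.hb h')
        · exact hdb' j h'
      · intro w h3 h4
        rw [Sym2.mem_iff] at h3 h4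
        rcases h3 with h3 | h3
        · exact h3
        · rcases h4 with h4 | h4
          · exact h4
          · exact absurd (h.hb (h3.symm.trans h4)) hij
    exact ⟨ex_source (hQi i) (ex_ne (hQi i)) h3,
      ex_source (hQi j) (ex_ne (hQi j)) (by rw [← hst]; exact h3)⟩
  have corB : ∀ i, Cor (ex (Q i)) (ex B) := by
    intro i s t hst
    have hi : ex (Q i) s ∈ D₁.arc s(p l, b i) := by rw [← hQr]; exact ex_mem _ _
    obtain ⟨t', ht'⟩ := ex_mem B t
    obtain ⟨k, hk, hz⟩ := (hB t').1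
    rw [ht', ← hst] at hz
    have h3 : ex (Q i) s = D₁.pt (p l) := by
      refine one0 D₁ hP₁ (hdb i).1 (hadj k hk).1 ?_ ?_ hi hz
      · intro h'
        rw [Sym2.eq_iff] at h'
        rcases h' with ⟨-, h'⟩ | ⟨-, h'⟩
        · exact h.hbp _ _ (by omega) h'
        · exact h.hbp _ _ (by omega) h'
      · intro w h3 h4
        rw [Sym2.mem_iff] at h3 h4
        rcases h3 with h3 | h3
        · exact h3
        · exfalso
          rcases h4 with h4 | h4
          · exact h.hbp _ _ (by omega) (h3.symm.trans h4)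
          · exact h.hbp _ _ (by omega) (h3.symm.trans h4)
    exact ⟨ex_source (hQi i) (ex_ne (hQi i)) h3,
      ex_source hBi (ex_ne hBi) (by rw [← hst]; exact h3)⟩
  have cf : ∀ i, Continuous (ex (Q i)) := fun i => Path.continuous_extend _
  have cB : Continuous (ex B) := Path.continuous_extend _
  have f0 : ∀ i, ex (Q i) 0 = D₁.pt (p l) := fun i => Path.extend_zero _
  have B0 : ex B 0 = D₁.pt (p l) := Path.extend_zero _
  obtain ⟨κ, hκ, hκ2⟩ := triple (cf 0) (cf 1) (cf 2) ((f0 0).trans (f0 1).symm)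
    ((f0 0).trans (f0 2).symm) (cor 0 1 (by decide)) (cor 1 2 (by decide)) (cor 2 0 (by decide))
  obtain ⟨x, -, hx2⟩ := triple (cf 0) (cf 1) cB ((f0 0).trans (f0 1).symm)
    ((f0 0).trans B0.symm) (cor 0 1 (by decide)) (corB 1) (corB 0).symm
  have hexp := S_exp (cf 0) (cf 1) cB ((f0 0).trans (f0 1).symm)
    ((f0 0).trans B0.symm) (cor 0 1 (by decide)) (corB 1) (corB 0).symm
  change S (ex (Q 0)) (ex (Q 1)) (ex (Q 2)) = _ at hκ2
  change S (ex (Q 0)) (ex (Q 1)) (ex B) = _ at hx2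
  rw [hx2] at hexp
  have hx := pi_le hexp
  have hk : (κ : ℂ) * I = ((3 * x : ℝ) : ℂ) * I := by
    push_cast
    linear_combination -hκ2 + r4 - r3 + 3 * hx2 - 2 * r1 - r2
  have hk' : κ = 3 * x := by
    have := congrArg Complex.im hk
    simpa using this
  rw [hk', abs_mul] at hκ
  have : |(3 : ℝ)| = 3 := abs_of_pos (by norm_num)
  rw [this] at hκ
  linarith

end Pool.Agent.Y857.HT
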