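import Pool.Agent.Y857.HT.State
import Pool.Agent.H858R3.PolyDraw

/-!
# Polygonal drawings with integer coordinates
-/

set_option autoImplicit false

namespace Pool.Agent.Y857.HT

open Set Complex Topology Filter Pool.Agent.TH510.Sefe Pool.Agent.H858R3.Poly
open Pool.Agent.H858R3.PolyDraw (segs arcL good lastP lastP_append arc_of_good arcOf_toFinset)

/-- near a point a segment is contained in two rays -/
theorem seg_rays {x y p z : ℂ} (hp : p ∈ segment ℝ x y) (hz : z ∈ segment ℝ x y) :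
    Ray p (y - x) z ∨ Ray p (x - y) z := by
  rw [segment_eq_image] at hp hz
  obtain ⟨a, -, rfl⟩ := hp
  obtain ⟨b, -, rfl⟩ := hz
  have h1 : ((1 - b) • x + b • y : ℂ) - ((1 - a) • x + a • y) = ((b - a : ℝ) : ℂ) * (y - x) := by
    simp only [Complex.real_smul]; push_cast; ring
  have h2 : (((b - a : ℝ) : ℂ) * (y - x)) * (starRingEnd ℂ) (y - x) =
      (((b - a) * Complex.normSq (y - x) : ℝ) : ℂ) := by
    rw [mul_assoc, Complex.mul_conj]; push_cast; ring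
  have h3 : (((b - a : ℝ) : ℂ) * (y - x)) * (starRingEnd ℂ) (x - y) =
      (((a - b) * Complex.normSq (y - x) : ℝ) : ℂ) := by
    have : (x - y : ℂ) = -(y - x) := by ring
    rw [this, map_neg, mul_neg, h2]; push_cast; ring
  unfold Ray
  rw [h1, h2, h3]
  simp only [Complex.ofReal_im, Complex.ofReal_re, true_and]
  rcases le_total a b with h | h
  · left; exact mul_nonneg (by linarith) (Complex.normSq_nonneg _)
  · right; exact mul_nonneg (by linarith) (Complex.normSq_nonneg _)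

structure PD (n m : ℕ) where
  eu : Fin m → Fin n
  ev : Fin m → Fin n
  pos : Fin n → P
  bends : Fin m → List P

namespace PD

variable {n m : ℕ} (d : PD n m)

/-- the segments of an edge -/
def L (i : Fin m) : List (P × P) := segs (d.pos (d.eu i)) (d.bends i ++ [d.pos (d.ev i)])

def isEnd (w : Fin n) (i : Fin m) : Bool := decide (w = d.eu i) || decide (w = d.ev i)

def okSelf (i : Fin m) : Bool :=
  good (d.pos (d.eu i)) (d.bends i ++ [d.pos (d.ev i)]) &&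
    (d.L i).all fun s => decide (s.1 ≠ s.2) && (d.L i).all fun s' => decide (s = s') || sep s s'

def okAvoid (i : Fin m) (w : Fin n) : Bool :=
  d.isEnd w i || (d.L i).all fun s => decide (os s (d.pos w) ≠ 0)

def okPair (i j : Fin m) : Bool :=
  (d.L i).all fun s => (d.L j).all fun t => disj s t || cross s t ||
    decide (∃ w : Fin n, d.isEnd w i = true ∧ d.isEnd w j = true ∧ cornerAt (d.pos w) s t = true)

/-- no crossing -/
def noX (i j : Fin m) : Bool :=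
  (d.L i).all fun s => (d.L j).all fun t => disj s t ||
    decide (∃ w : Fin n, d.isEnd w i = true ∧ d.isEnd w j = true ∧ cornerAt (d.pos w) s t = true)

/-- the number of crossings of two edges -/
def cnt (i j : Fin m) : ℕ :=
  (((d.L i).toFinset ×ˢ (d.L j).toFinset).filter (fun q => cross q.1 q.2 = true)).card

def indep (i j : Fin m) : Bool :=
  decide (∀ w : Fin n, ¬ (d.isEnd w i = true ∧ d.isEnd w j = true))

structure OK : Prop where
  pos : ∀ u v : Fin n, d.pos u = d.pos v → u = v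
  self : ∀ i : Fin m, d.okSelf i = true
  avoid : ∀ (i : Fin m) (w : Fin n), d.okAvoid i w = true
  pair : ∀ i j : Fin m, i ≠ j → d.okPair i j = true
  inj : ∀ i j : Fin m, (s(d.eu i, d.ev i) : Sym2 (Fin n)) = s(d.eu j, d.ev j) → i = j
  ne : ∀ i : Fin m, d.eu i ≠ d.ev i

/-- the graph of all edges -/
def gr : SimpleGraph (Fin n) :=
  SimpleGraph.fromEdgeSet {e | ∃ i : Fin m, e = s(d.eu i, d.ev i)}

variable {d}

theorem mem_gr (h : d.OK) {e : Sym2 (Fin n)} :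
    e ∈ d.gr.edgeSet ↔ ∃ i : Fin m, e = s(d.eu i, d.ev i) := by
  unfold gr
  rw [SimpleGraph.edgeSet_fromEdgeSet]
  constructor
  · rintro ⟨h1, -⟩; exact h1
  · rintro ⟨i, rfl⟩
    refine ⟨⟨i, rfl⟩, ?_⟩
    intro hd
    exact h.ne i (by simpa using hd)

theorem self_prop (h : d.OK) (i : Fin m) :
    good (d.pos (d.eu i)) (d.bends i ++ [d.pos (d.ev i)]) = true ∧
    ∀ s ∈ (d.L i).toFinset, s.1 ≠ s.2 ∧ ∀ s' ∈ (d.L i).toFinset, s ≠ s' → sep s s' = true := by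
  have h := h.self i
  simp only [okSelf, Bool.and_eq_true, List.all_eq_true, decide_eq_true_eq, Bool.or_eq_true] at h
  refine ⟨h.1, fun s hs => ?_⟩
  rw [List.mem_toFinset] at hs
  refine ⟨(h.2 s hs).1, fun s' hs' hne => ?_⟩
  rw [List.mem_toFinset] at hs'
  exact ((h.2 s hs).2 s' hs').resolve_left hne

variable (d) in
/-- the arcs of the drawing -/
def theArc (e : Sym2 (Fin n)) : Set ℂ :=
  {z | ∃ i : Fin m, e = s(d.eu i, d.ev i) ∧ z ∈ arcL (d.L i)}

theorem theArc_eq (h : d.OK) (i : Fin m) : d.theArc s(d.eu i, d.ev i) = arcL (d.L i) := by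
  ext z
  constructor
  · rintro ⟨j, hj, hz⟩
    rw [h.inj i j hj]; exact hz
  · intro hz; exact ⟨i, rfl, hz⟩

theorem arc_i (h : d.OK) (i : Fin m) :
    IsArc (arcL (d.L i)) (cp (d.pos (d.eu i))) (cp (d.pos (d.ev i))) := by
  have h1 := (self_prop h i).1
  unfold L
  have key : ∀ (p : P) (l : List P) (q : P), good p (l ++ [q]) = true →
      IsArc (arcL (segs p (l ++ [q]))) (cp p) (cp q) := by
    intro p l q hg
    cases l with
    | nil =>
      obtain ⟨γ, g1, g2⟩ := arc_of_good [] p q hg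
      exact ⟨γ, g1, g2⟩
    | cons r l =>
      obtain ⟨γ, g1, g2⟩ := arc_of_good (l ++ [q]) p r hg
      have e : lastP p (r :: (l ++ [q])) = q := lastP_append r l q
      rw [show (r :: l ++ [q]) = r :: (l ++ [q]) from rfl, ← g2]
      refine ⟨γ.cast rfl (by rw [e]), ?_, ?_⟩
      · exact g1
      · rfl
  exact key _ _ _ h1

theorem avoid_i (h : d.OK) {i : Fin m} {w : Fin n} (hw : cp (d.pos w) ∈ arcL (d.L i)) :
    d.isEnd w i = true := by
  have h := h.avoid i w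
  simp only [okAvoid, Bool.or_eq_true, List.all_eq_true, decide_eq_true_eq] at h
  rcases h with h | h
  · exact h
  · exfalso
    obtain ⟨s, hs, hz⟩ := hw
    apply h s hs
    have := orr_seg hz
    rw [orr_cp] at this
    unfold os
    exact_mod_cast this

theorem isEnd_mem {w : Fin n} {i : Fin m} :
    d.isEnd w i = true ↔ w ∈ (s(d.eu i, d.ev i) : Sym2 (Fin n)) := by
  simp only [isEnd, Bool.or_eq_true, decide_eq_true_eq, Sym2.mem_iff]

theorem pair_prop (h : d.OK) {i j : Fin m} (hij : i ≠ j) {s t : P × P} (hs : s ∈ d.L i)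
    (ht : t ∈ d.L j) : disj s t = true ∨ cross s t = true ∨
      ∃ w : Fin n, d.isEnd w i = true ∧ d.isEnd w j = true ∧ cornerAt (d.pos w) s t = true := by
  have h := h.pair i j hij
  simp only [okPair, List.all_eq_true, Bool.or_eq_true, decide_eq_true_eq] at h
  rcases h s hs t ht with (h | h) | h
  · exact Or.inl h
  · exact Or.inr (Or.inl h)
  · exact Or.inr (Or.inr h)

theorem finite_ij (h : d.OK) {i j : Fin m} (hij : i ≠ j) :
    (arcL (d.L i) ∩ arcL (d.L j)).Finite := by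
  have hsub : arcL (d.L i) ∩ arcL (d.L j) ⊆
      ⋃ s ∈ (d.L i).toFinset, ⋃ t ∈ (d.L j).toFinset, (sg s ∩ sg t) := by
    rintro z ⟨⟨s, hs, hzs⟩, ⟨t, ht, hzt⟩⟩
    simp only [Set.mem_iUnion]
    exact ⟨s, List.mem_toFinset.2 hs, t, List.mem_toFinset.2 ht, hzs, hzt⟩
  refine Set.Finite.subset ?_ hsub
  refine (d.L i).toFinset.finite_toSet.biUnion (fun s hs => ?_)
  refine (d.L j).toFinset.finite_toSet.biUnion (fun t ht => ?_)
  have hs' : s ∈ d.L i := List.mem_toFinset.1 hs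
  have ht' : t ∈ d.L j := List.mem_toFinset.1 ht
  rcases pair_prop h hij hs' ht' with h | h | ⟨w, -, -, h⟩
  · rw [Set.disjoint_iff_inter_eq_empty.1 (disj_sound h)]; exact Set.finite_empty
  · obtain ⟨z, hz, -⟩ := cross_sound h
    rw [hz]; exact Set.finite_singleton z
  · exact (Set.finite_singleton _).subset (corner_sound h)

theorem proper_ij (h : d.OK) {i j : Fin m} (hij : i ≠ j) {z : ℂ}
    (hz : z ∈ arcL (d.L i) ∩ arcL (d.L j))
    (hzn : ∀ w : Fin n, z ≠ cp (d.pos w)) : IsProperCrossing (arcL (d.L i)) (arcL (d.L j)) z := by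
  obtain ⟨⟨s, hs, hzs⟩, ⟨t, ht, hzt⟩⟩ := hz
  rcases pair_prop h hij hs ht with h' | h' | ⟨w, -, -, h'⟩
  · exact absurd hzt (Set.disjoint_left.1 (disj_sound h') hzs)
  · rw [← arcOf_toFinset, ← arcOf_toFinset]
    exact proper_sound (self_prop h i).2 (self_prop h j).2 (List.mem_toFinset.2 hs)
      (List.mem_toFinset.2 ht) h' hzs hzt
  · exact absurd (corner_sound h' ⟨hzs, hzt⟩) (hzn w)

theorem card_ij (h : d.OK) {i j : Fin m} (hij : i ≠ j)
    (hind : ∀ w : Fin n, ¬ (d.isEnd w i = true ∧ d.isEnd w j = true)) :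
    (arcL (d.L i) ∩ arcL (d.L j)).ncard = d.cnt i j := by
  rw [← arcOf_toFinset, ← arcOf_toFinset]
  refine ncard_inter (self_prop h i).2 (self_prop h j).2 ?_
  intro s hs t ht
  rcases pair_prop h hij (List.mem_toFinset.1 hs) (List.mem_toFinset.1 ht) with
    h | h | ⟨w, h1, h2, -⟩
  · exact Or.inl h
  · exact Or.inr h
  · exact absurd ⟨h1, h2⟩ (hind w)

/-- the drawing -/
noncomputable def draw (h : d.OK) : Drawing d.gr where
  pt v := cp (d.pos v)
  arc := d.theArc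
  pt_inj u v huv := h.pos u v (cp_inj huv)
  isArc := by
    intro u v huv
    obtain ⟨i, hi⟩ := (mem_gr h (e := s(u, v))).1 huv
    rw [hi, theArc_eq h]
    rw [Sym2.eq_iff] at hi
    rcases hi with ⟨h1, h2⟩ | ⟨h1, h2⟩
    · rw [h1, h2]; exact arc_i h i
    · rw [h1, h2]; exact isArc_symm (arc_i h i)
  avoid := by
    intro e he w hw
    obtain ⟨i, rfl⟩ := (mem_gr h).1 he
    rw [theArc_eq h] at hw
    exact isEnd_mem.1 (avoid_i h hw)
  finite := by
    intro e he f hf hef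
    obtain ⟨i, rfl⟩ := (mem_gr h).1 he
    obtain ⟨j, rfl⟩ := (mem_gr h).1 hf
    rw [theArc_eq h, theArc_eq h]
    exact finite_ij h (fun hh => hef (by rw [hh]))
  proper := by
    intro e he f hf hef z hz hzn
    obtain ⟨i, rfl⟩ := (mem_gr h).1 he
    obtain ⟨j, rfl⟩ := (mem_gr h).1 hf
    rw [theArc_eq h, theArc_eq h] at hz ⊢
    exact proper_ij h (fun hh => hef (by rw [hh])) hz (fun w hw => hzn ⟨w, hw.symm⟩)

theorem draw_nice (h : d.OK) : Nice (draw h) := by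
  classical
  intro v
  change ∃ S : Finset ℂ, (∀ s ∈ S, s ≠ 0) ∧
    ∀ᶠ z in 𝓝 (cp (d.pos v)), ∀ e ∈ d.gr.edgeSet, z ∈ d.theArc e →
      ∃ s ∈ S, Ray (cp (d.pos v)) s z
  let T : Finset (P × P) := Finset.univ.biUnion fun i => (d.L i).toFinset
  have hT : ∀ i, ∀ s ∈ d.L i, s ∈ T := fun i s hs =>
    Finset.mem_biUnion.2 ⟨i, Finset.mem_univ i, List.mem_toFinset.2 hs⟩
  have hT' : ∀ s ∈ T, s.1 ≠ s.2 := by
    intro s hs
    obtain ⟨i, -, hi⟩ := Finset.mem_biUnion.1 hs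
    exact ((self_prop h i).2 s hi).1
  refine ⟨T.image (fun s => cp s.2 - cp s.1) ∪ T.image (fun s => cp s.1 - cp s.2), ?_, ?_⟩
  · intro s hs
    rcases Finset.mem_union.1 hs with hs | hs <;> obtain ⟨t, ht, rfl⟩ := Finset.mem_image.1 hs
    · exact sub_ne_zero.2 fun h => hT' t ht (cp_inj h).symm
    · exact sub_ne_zero.2 fun h => hT' t ht (cp_inj h)
  · have hev : ∀ᶠ z in 𝓝 (cp (d.pos v)), ∀ s ∈ (T : Set (P × P)),
        z ∈ sg s → cp (d.pos v) ∈ sg s := by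
      rw [eventually_all_finite T.finite_toSet]
      intro s hs
      by_cases hp : cp (d.pos v) ∈ sg s
      · exact Filter.Eventually.of_forall fun _ _ => hp
      · filter_upwards [(sg_closed s).isOpen_compl.mem_nhds hp] with z hz h
        exact absurd h hz
    filter_upwards [hev] with z hz e he hze
    obtain ⟨i, -, s, hs, hzs⟩ := hze
    have hsT := hT i s hs
    rcases seg_rays (hz s hsT hzs) hzs with h | h
    · exact ⟨_, Finset.mem_union_left _ (Finset.mem_image.2 ⟨s, hsT, rfl⟩), h⟩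
    · exact ⟨_, Finset.mem_union_right _ (Finset.mem_image.2 ⟨s, hsT, rfl⟩), h⟩

theorem draw_cnt (h : d.OK) {i j : Fin m} (hind : d.indep i j = true) :
    ((draw h).crossings s(d.eu i, d.ev i) s(d.eu j, d.ev j)).ncard = d.cnt i j := by
  have hind' : ∀ w : Fin n, ¬ (d.isEnd w i = true ∧ d.isEnd w j = true) := by
    simpa [indep] using hind
  have hij : i ≠ j := by
    rintro rfl
    exact hind' (d.eu i) (by simp [isEnd])
  have e1 : (draw h).crossings s(d.eu i, d.ev i) s(d.eu j, d.ev j) =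
      arcL (d.L i) ∩ arcL (d.L j) := by
    ext z
    change (z ∈ d.theArc _ ∩ d.theArc _ ∧ z ∉ Set.range fun v => cp (d.pos v)) ↔ _
    rw [theArc_eq h, theArc_eq h]
    refine ⟨fun h => h.1, fun hz => ⟨hz, ?_⟩⟩
    rintro ⟨w, rfl⟩
    exact hind' w ⟨avoid_i h hz.1, avoid_i h hz.2⟩
  rw [e1, card_ij h hij hind']

theorem draw_noX (h : d.OK) {i j : Fin m} (hx : d.noX i j = true) :
    (draw h).crossings s(d.eu i, d.ev i) s(d.eu j, d.ev j) = ∅ := by
  rw [Set.eq_empty_iff_forall_notMem]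
  intro z hz
  change z ∈ d.theArc _ ∩ d.theArc _ ∧ z ∉ Set.range fun v => cp (d.pos v) at hz
  rw [theArc_eq h, theArc_eq h] at hz
  obtain ⟨⟨⟨s, hs, hzs⟩, ⟨t, ht, hzt⟩⟩, hn⟩ := hz
  simp only [noX, List.all_eq_true, Bool.or_eq_true, decide_eq_true_eq] at hx
  rcases hx s hs t ht with h' | ⟨w, -, -, h'⟩
  · exact absurd hzt (Set.disjoint_left.1 (disj_sound h') hzs)
  · exact hn ⟨w, (corner_sound h' ⟨hzs, hzt⟩).symm⟩

/-- the graph with the edges in `I`, on the vertex set `V` -/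
theorem exists_drawing {V : Type} [Finite V] (h : d.OK) (φ : Fin n ↪ V) {I₁ I₂ : Fin m → Bool}
    (hI : ∀ i, I₁ i = true ∨ I₂ i = true) {G₁ G₂ : SimpleGraph V}
    (h1 : ∀ e, e ∈ G₁.edgeSet ↔ ∃ i, I₁ i = true ∧ e = s(φ (d.eu i), φ (d.ev i)))
    (h2 : ∀ e, e ∈ G₂.edgeSet ↔ ∃ i, I₂ i = true ∧ e = s(φ (d.eu i), φ (d.ev i))) :
    ∃ D : Drawing (G₁ ⊔ G₂), Nice D ∧
      (∀ i j, d.indep i j = true → (D.crossings s(φ (d.eu i), φ (d.ev i))
        s(φ (d.eu j), φ (d.ev j))).ncard = d.cnt i j) ∧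
      ∀ i j, d.noX i j = true → D.crossings s(φ (d.eu i), φ (d.ev i))
        s(φ (d.eu j), φ (d.ev j)) = ∅ := by
  have hmap : d.gr.map φ = G₁ ⊔ G₂ := by
    rw [← SimpleGraph.edgeSet_inj, SimpleGraph.edgeSet_map]
    ext e
    rw [edge_sup rfl, h1, h2]
    constructor
    · rintro ⟨e₀, he₀, rfl⟩
      obtain ⟨i, rfl⟩ := (mem_gr h).1 he₀
      rcases hI i with h | h
      · exact Or.inl ⟨i, h, rfl⟩
      · exact Or.inr ⟨i, h, rfl⟩
    · rintro (⟨i, -, rfl⟩ | ⟨i, -, rfl⟩)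
      · exact ⟨_, (mem_gr h).2 ⟨i, rfl⟩, rfl⟩
      · exact ⟨_, (mem_gr h).2 ⟨i, rfl⟩, rfl⟩
  obtain ⟨D, hN, hc⟩ := ext (draw h) (draw_nice h) φ
  rw [← hmap]
  refine ⟨D, hN, ?_, ?_⟩
  · intro i j hij
    have := hc _ ((mem_gr h).2 ⟨i, rfl⟩) _ ((mem_gr h).2 ⟨j, rfl⟩)
    rw [← draw_cnt h hij, ← this]; rfl
  · intro i j hij
    have := hc _ ((mem_gr h).2 ⟨i, rfl⟩) _ ((mem_gr h).2 ⟨j, rfl⟩)
    rw [← draw_noX h hij, ← this]; rfl

theorem indep_of {V : Type} (φ : Fin n ↪ V) {i j : Fin m}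
    (h : Indep s(φ (d.eu i), φ (d.ev i)) s(φ (d.eu j), φ (d.ev j))) : d.indep i j = true := by
  simp only [indep, decide_eq_true_eq]
  rintro w ⟨h1, h2⟩
  apply h (φ w)
  rw [isEnd_mem, Sym2.mem_iff] at h1 h2
  rw [Sym2.mem_iff, Sym2.mem_iff]
  exact ⟨h1.imp (fun h => by rw [h]) (fun h => by rw [h]),
    h2.imp (fun h => by rw [h]) (fun h => by rw [h])⟩

theorem st_of {V : Type} [Finite V] (h : d.OK) (φ : Fin n ↪ V) {I₁ I₂ : Fin m → Bool}
    (hI : ∀ i, I₁ i = true ∨ I₂ i = true)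
    (hev : ∀ i j, ((I₁ i = true ∧ I₁ j = true) ∨ (I₂ i = true ∧ I₂ j = true)) →
      d.indep i j = true → Even (d.cnt i j)) {G₁ G₂ : SimpleGraph V}
    (h1 : ∀ e, e ∈ G₁.edgeSet ↔ ∃ i, I₁ i = true ∧ e = s(φ (d.eu i), φ (d.ev i)))
    (h2 : ∀ e, e ∈ G₂.edgeSet ↔ ∃ i, I₂ i = true ∧ e = s(φ (d.eu i), φ (d.ev i))) :
    St G₁ G₂ := by
  obtain ⟨D, hN, c1, c2⟩ := exists_drawing h φ hI h1 h2
  refine ⟨_, D, rfl, hN, ?_, ?_⟩
  · intro e he f hf hi
    obtain ⟨i, hi1, rfl⟩ := (h1 e).1 he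
    obtain ⟨j, hj1, rfl⟩ := (h1 f).1 hf
    have := indep_of φ hi
    rw [c1 i j this, Nat.not_odd_iff_even]
    exact hev i j (Or.inl ⟨hi1, hj1⟩) this
  · intro e he f hf hi
    obtain ⟨i, hi1, rfl⟩ := (h2 e).1 he
    obtain ⟨j, hj1, rfl⟩ := (h2 f).1 hf
    have := indep_of φ hi
    rw [c1 i j this, Nat.not_odd_iff_even]
    exact hev i j (Or.inr ⟨hi1, hj1⟩) this

theorem stM_of {V : Type} [Finite V] (h : d.OK) (φ : Fin n ↪ V) {I₁ I₂ : Fin m → Bool}
    (hI : ∀ i, I₁ i = true ∨ I₂ i = true)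
    (hev : ∀ i j, ((I₁ i = true ∧ I₁ j = true) ∨ (I₂ i = true ∧ I₂ j = true)) →
      d.indep i j = true → Even (d.cnt i j)) {G₁ G₂ : SimpleGraph V}
    (h1 : ∀ e, e ∈ G₁.edgeSet ↔ ∃ i, I₁ i = true ∧ e = s(φ (d.eu i), φ (d.ev i)))
    (h2 : ∀ e, e ∈ G₂.edgeSet ↔ ∃ i, I₂ i = true ∧ e = s(φ (d.eu i), φ (d.ev i)))
    (k : Fin m) (hk1 : I₁ k = true) (hk2 : I₂ k = true)
    (hkx : ∀ j, j ≠ k → (d.indep k j = true ∧ d.indep j k = true ∧ Even (d.cnt k j) ∧
      Even (d.cnt j k)) ∨ (d.noX k j = true ∧ d.noX j k = true)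
      ) :
    StM G₁ G₂ s(φ (d.eu k), φ (d.ev k)) := by
  obtain ⟨D, hN, c1, c2⟩ := exists_drawing h φ hI h1 h2
  have key : ∀ j, j ≠ k → ¬ Odd (D.crossings s(φ (d.eu k), φ (d.ev k))
      s(φ (d.eu j), φ (d.ev j))).ncard ∧ ¬ Odd (D.crossings s(φ (d.eu j), φ (d.ev j))
      s(φ (d.eu k), φ (d.ev k))).ncard := by
    intro j hj
    rcases hkx j hj with ⟨a, b, c, e⟩ | ⟨a, b⟩
    · rw [c1 k j a, c1 j k b, Nat.not_odd_iff_even, Nat.not_odd_iff_even]
      exact ⟨c, e⟩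
    · rw [c2 k j a, c2 j k b]; simp
  refine ⟨_, D, rfl, hN, ?_, ?_, ⟨(h1 _).2 ⟨k, hk1, rfl⟩, ?_⟩, ⟨(h2 _).2 ⟨k, hk2, rfl⟩, ?_⟩⟩
  · intro e he f hf hi
    obtain ⟨i, hi1, rfl⟩ := (h1 e).1 he
    obtain ⟨j, hj1, rfl⟩ := (h1 f).1 hf
    have := indep_of φ hi
    rw [c1 i j this, Nat.not_odd_iff_even]
    exact hev i j (Or.inl ⟨hi1, hj1⟩) this
  · intro e he f hf hi
    obtain ⟨i, hi1, rfl⟩ := (h2 e).1 he
    obtain ⟨j, hj1, rfl⟩ := (h2 f).1 hf
    have := indep_of φ hi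
    rw [c1 i j this, Nat.not_odd_iff_even]
    exact hev i j (Or.inr ⟨hi1, hj1⟩) this
  · intro f hf hfk
    obtain ⟨j, -, rfl⟩ := (h1 f).1 hf
    exact key j (by rintro rfl; exact hfk rfl)
  · intro f hf hfk
    obtain ⟨j, -, rfl⟩ := (h2 f).1 hf
    exact key j (by rintro rfl; exact hfk rfl)

end PD

end Pool.Agent.Y857.HT
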