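import Pool.Agent.Y857.HT.Data

/-!
# The drawing of a path with three leaves at each end
-/

set_option autoImplicit false

namespace Pool.Agent.Y857.HT

open Set Complex Topology Filter Pool.Agent.TH510.Sefe Pool.Agent.H858R3.Poly

variable {V : Type}

/-- the graph with a given set of edges (without loops) -/
abbrev fes (S : Set (Sym2 V)) : SimpleGraph V := SimpleGraph.fromEdgeSet S

theorem mem_fes {S : Set (Sym2 V)} (hS : ∀ e ∈ S, ¬ e.IsDiag) {e : Sym2 V} :
    e ∈ (fes S).edgeSet ↔ e ∈ S := by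
  rw [SimpleGraph.edgeSet_fromEdgeSet]
  exact ⟨fun h => h.1, fun h => ⟨h, hS e h⟩⟩

def spokes (c d : V) (a b : Fin 3 → V) : Set (Sym2 V) :=
  {e | (∃ i, e = s(c, a i)) ∨ ∃ i, e = s(d, b i)}

def XX (a b : Fin 3 → V) : Set (Sym2 V) := {e | ∃ i, e = s(a i, b i)}

def YY (a b : Fin 3 → V) : Set (Sym2 V) := {e | ∃ i, e = s(a i, b (i + 1))}

def pth (p : ℕ → V) (l : ℕ) : Set (Sym2 V) := {e | ∃ i, i < l ∧ e = s(p i, p (i + 1))}

def pthk (p : ℕ → V) (l k : ℕ) : Set (Sym2 V) :=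
  {e | (∃ i, i < k ∧ e = s(p i, p (i + 1))) ∨ e = s(p k, p (l - 1)) ∨ e = s(p (l - 1), p l)}

structure Setup (a b : Fin 3 → V) (p : ℕ → V) (l : ℕ) : Prop where
  ha : Function.Injective a
  hb : Function.Injective b
  hp : ∀ i j, i ≤ l → j ≤ l → p i = p j → i = j
  hap : ∀ i j, j ≤ l → a i ≠ p j
  hbp : ∀ i j, j ≤ l → b i ≠ p j
  hab : ∀ i j, a i ≠ b j
  hl : 1 ≤ l

variable {a b : Fin 3 → V} {p : ℕ → V} {l : ℕ}

theorem Setup.spokes_diag (h : Setup a b p l) : ∀ e ∈ spokes (p 0) (p l) a b, ¬ e.IsDiag := by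
  rintro e (⟨i, rfl⟩ | ⟨i, rfl⟩)
  · simpa using (h.hap i 0 (Nat.zero_le _)).symm
  · simpa using (h.hbp i l le_rfl).symm

theorem Setup.XX_diag (h : Setup a b p l) : ∀ e ∈ XX a b, ¬ e.IsDiag := by
  rintro e ⟨i, rfl⟩
  simpa using h.hab i i

theorem Setup.YY_diag (h : Setup a b p l) : ∀ e ∈ YY a b, ¬ e.IsDiag := by
  rintro e ⟨i, rfl⟩
  simpa using h.hab i (i + 1)

theorem Setup.pth_diag (h : Setup a b p l) : ∀ e ∈ pth p l, ¬ e.IsDiag := by
  rintro e ⟨i, hi, rfl⟩
  have : p i ≠ p (i + 1) := fun h' => by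
    have := h.hp i (i + 1) (by omega) (by omega) h'
    omega
  simpa using this

theorem Setup.pthk_diag (h : Setup a b p l) {k : ℕ} (hk : k + 1 < l) :
    ∀ e ∈ pthk p l k, ¬ e.IsDiag := by
  rintro e (⟨i, hi, rfl⟩ | rfl | rfl)
  · have : p i ≠ p (i + 1) := fun h' => by
      have := h.hp i (i + 1) (by omega) (by omega) h'
      omega
    simpa using this
  · have : p k ≠ p (l - 1) := fun h' => by
      have := h.hp k (l - 1) (by omega) (by omega) h'
      omega
    simpa using this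
  · have : p (l - 1) ≠ p l := fun h' => by
      have := h.hp (l - 1) l (by omega) (by omega) h'
      omega
    simpa using this

theorem diag_union {A B : Set (Sym2 V)} (hA : ∀ e ∈ A, ¬ e.IsDiag) (hB : ∀ e ∈ B, ¬ e.IsDiag) :
    ∀ e ∈ A ∪ B, ¬ e.IsDiag := fun e he => he.elim (hA e) (hB e)

theorem base3 [Finite V] (h : Setup a b p l) (hl : 3 ≤ l) :
    StM (fes (spokes (p 0) (p l) a b ∪ pthk p l 1 ∪ XX a b))
      (fes (spokes (p 0) (p l) a b ∪ pthk p l 1 ∪ YY a b)) s(p 1, p (l - 1)) := by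
  let f : Fin 10 → V := ![p 0, p l, a 0, a 1, a 2, b 0, b 1, b 2, p 1, p (l - 1)]
  have hf : Function.Injective f := by
    have e1 : p 0 ≠ p l := fun h' => by have := h.hp _ _ (by omega) (by omega) h'; omega
    have e2 : p 0 ≠ p 1 := fun h' => by have := h.hp _ _ (by omega) (by omega) h'; omega
    have e3 : p 0 ≠ p (l - 1) := fun h' => by have := h.hp _ _ (by omega) (by omega) h'; omega
    have e4 : p l ≠ p 1 := fun h' => by have := h.hp _ _ (by omega) (by omega) h'; omega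
    have e5 : p l ≠ p (l - 1) := fun h' => by have := h.hp _ _ (by omega) (by omega) h'; omega
    have e6 : p 1 ≠ p (l - 1) := fun h' => by have := h.hp _ _ (by omega) (by omega) h'; omega
    have a01 : a 0 ≠ a 1 := fun h' => absurd (h.ha h') (by decide)
    have a02 : a 0 ≠ a 2 := fun h' => absurd (h.ha h') (by decide)
    have a12 : a 1 ≠ a 2 := fun h' => absurd (h.ha h') (by decide)
    have b01 : b 0 ≠ b 1 := fun h' => absurd (h.hb h') (by decide)
    have b02 : b 0 ≠ b 2 := fun h' => absurd (h.hb h') (by decide)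
    have b12 : b 1 ≠ b 2 := fun h' => absurd (h.hb h') (by decide)
    have ap := h.hap
    have bp := h.hbp
    have ab := h.hab
    have ap0 := fun i => ap i 0 (by omega)
    have apl := fun i => ap i l (by omega)
    have ap1 := fun i => ap i 1 (by omega)
    have apm := fun i => ap i (l - 1) (by omega)
    have bp0 := fun i => bp i 0 (by omega)
    have bpl := fun i => bp i l (by omega)
    have bp1 := fun i => bp i 1 (by omega)
    have bpm := fun i => bp i (l - 1) (by omega)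
    intro i j hij
    fin_cases i <;> fin_cases j <;> simp [f] at hij ⊢ <;>
      first
        | exact absurd hij (by assumption)
        | exact absurd hij.symm (by assumption)
        | exact absurd hij (ap0 _)
        | exact absurd hij.symm (ap0 _)
        | exact absurd hij (apl _)
        | exact absurd hij.symm (apl _)
        | exact absurd hij (ap1 _)
        | exact absurd hij.symm (ap1 _)
        | exact absurd hij (apm _)
        | exact absurd hij.symm (apm _)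
        | exact absurd hij (bp0 _)
        | exact absurd hij.symm (bp0 _)
        | exact absurd hij (bpl _)
        | exact absurd hij.symm (bpl _)
        | exact absurd hij (bp1 _)
        | exact absurd hij.symm (bp1 _)
        | exact absurd hij (bpm _)
        | exact absurd hij.symm (bpm _)
        | exact absurd hij (ab _ _)
        | exact absurd hij.symm (ab _ _)
  have hd1 := diag_union (diag_union h.spokes_diag (h.pthk_diag (k := 1) (by omega))) h.XX_diag
  have hd2 := diag_union (diag_union h.spokes_diag (h.pthk_diag (k := 1) (by omega))) h.YY_diag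
  refine PD.stM_of (d := d10) d10_ok ⟨f, hf⟩ d10_I d10_even (k := 8) ?_ ?_ rfl rfl d10_mid
  · intro e
    rw [mem_fes hd1]
    constructor
    · rintro (((⟨i, rfl⟩ | ⟨i, rfl⟩) | (⟨i, hi, rfl⟩ | rfl | rfl)) | ⟨i, rfl⟩)
      · fin_cases i
        exacts [⟨0, rfl, rfl⟩, ⟨1, rfl, rfl⟩, ⟨2, rfl, rfl⟩]
      · fin_cases i
        exacts [⟨4, rfl, rfl⟩, ⟨5, rfl, rfl⟩, ⟨6, rfl, rfl⟩]
      · obtain rfl : i = 0 := by omega
        exact ⟨3, rfl, rfl⟩
      · exact ⟨8, rfl, rfl⟩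
      · exact ⟨7, rfl, Sym2.eq_swap⟩
      · fin_cases i
        exacts [⟨9, rfl, rfl⟩, ⟨10, rfl, rfl⟩, ⟨11, rfl, rfl⟩]
    · rintro ⟨i, hi, rfl⟩
      fin_cases i
      · exact Or.inl (Or.inl (Or.inl ⟨0, rfl⟩))
      · exact Or.inl (Or.inl (Or.inl ⟨1, rfl⟩))
      · exact Or.inl (Or.inl (Or.inl ⟨2, rfl⟩))
      · exact Or.inl (Or.inr (Or.inl ⟨0, one_pos, rfl⟩))
      · exact Or.inl (Or.inl (Or.inr ⟨0, rfl⟩))
      · exact Or.inl (Or.inl (Or.inr ⟨1, rfl⟩))
      · exact Or.inl (Or.inl (Or.inr ⟨2, rfl⟩))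
      · exact Or.inl (Or.inr (Or.inr (Or.inr Sym2.eq_swap)))
      · exact Or.inl (Or.inr (Or.inr (Or.inl rfl)))
      · exact Or.inr ⟨0, rfl⟩
      · exact Or.inr ⟨1, rfl⟩
      · exact Or.inr ⟨2, rfl⟩
      · exact absurd hi (by decide)
      · exact absurd hi (by decide)
      · exact absurd hi (by decide)
  · intro e
    rw [mem_fes hd2]
    constructor
    · rintro (((⟨i, rfl⟩ | ⟨i, rfl⟩) | (⟨i, hi, rfl⟩ | rfl | rfl)) | ⟨i, rfl⟩)
      · fin_cases i
        exacts [⟨0, rfl, rfl⟩, ⟨1, rfl, rfl⟩, ⟨2, rfl, rfl⟩]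
      · fin_cases i
        exacts [⟨4, rfl, rfl⟩, ⟨5, rfl, rfl⟩, ⟨6, rfl, rfl⟩]
      · obtain rfl : i = 0 := by omega
        exact ⟨3, rfl, rfl⟩
      · exact ⟨8, rfl, rfl⟩
      · exact ⟨7, rfl, Sym2.eq_swap⟩
      · fin_cases i
        exacts [⟨12, rfl, rfl⟩, ⟨13, rfl, rfl⟩, ⟨14, rfl, rfl⟩]
    · rintro ⟨i, hi, rfl⟩
      fin_cases i
      · exact Or.inl (Or.inl (Or.inl ⟨0, rfl⟩))
      · exact Or.inl (Or.inl (Or.inl ⟨1, rfl⟩))
      · exact Or.inl (Or.inl (Or.inl ⟨2, rfl⟩))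
      · exact Or.inl (Or.inr (Or.inl ⟨0, one_pos, rfl⟩))
      · exact Or.inl (Or.inl (Or.inr ⟨0, rfl⟩))
      · exact Or.inl (Or.inl (Or.inr ⟨1, rfl⟩))
      · exact Or.inl (Or.inl (Or.inr ⟨2, rfl⟩))
      · exact Or.inl (Or.inr (Or.inr (Or.inr Sym2.eq_swap)))
      · exact Or.inl (Or.inr (Or.inr (Or.inl rfl)))
      · exact absurd hi (by decide)
      · exact absurd hi (by decide)
      · exact absurd hi (by decide)
      · exact Or.inr ⟨0, rfl⟩
      · exact Or.inr ⟨1, rfl⟩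
      · exact Or.inr ⟨2, rfl⟩

theorem base2 [Finite V] (h : Setup a b p 2) :
    St (fes (spokes (p 0) (p 2) a b ∪ pth p 2 ∪ XX a b))
      (fes (spokes (p 0) (p 2) a b ∪ pth p 2 ∪ YY a b)) := by
  let f : Fin 9 → V := ![p 0, p 2, a 0, a 1, a 2, b 0, b 1, b 2, p 1]
  have hf : Function.Injective f := by
    have e1 : p 0 ≠ p 2 := fun h' => by have := h.hp _ _ (by omega) (by omega) h'; omega
    have e2 : p 0 ≠ p 1 := fun h' => by have := h.hp _ _ (by omega) (by omega) h'; omega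
    have e4 : p 2 ≠ p 1 := fun h' => by have := h.hp _ _ (by omega) (by omega) h'; omega
    have a01 : a 0 ≠ a 1 := fun h' => absurd (h.ha h') (by decide)
    have a02 : a 0 ≠ a 2 := fun h' => absurd (h.ha h') (by decide)
    have a12 : a 1 ≠ a 2 := fun h' => absurd (h.ha h') (by decide)
    have b01 : b 0 ≠ b 1 := fun h' => absurd (h.hb h') (by decide)
    have b02 : b 0 ≠ b 2 := fun h' => absurd (h.hb h') (by decide)
    have b12 : b 1 ≠ b 2 := fun h' => absurd (h.hb h') (by decide)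
    have ap := h.hap
    have bp := h.hbp
    have ab := h.hab
    have ap0 := fun i => ap i 0 (by omega)
    have apl := fun i => ap i 2 (by omega)
    have ap1 := fun i => ap i 1 (by omega)
    have bp0 := fun i => bp i 0 (by omega)
    have bpl := fun i => bp i 2 (by omega)
    have bp1 := fun i => bp i 1 (by omega)
    intro i j hij
    fin_cases i <;> fin_cases j <;> simp [f] at hij ⊢ <;>
      first
        | exact absurd hij (by assumption)
        | exact absurd hij.symm (by assumption)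
        | exact absurd hij (ap0 _)
        | exact absurd hij.symm (ap0 _)
        | exact absurd hij (apl _)
        | exact absurd hij.symm (apl _)
        | exact absurd hij (ap1 _)
        | exact absurd hij.symm (ap1 _)
        | exact absurd hij (bp0 _)
        | exact absurd hij.symm (bp0 _)
        | exact absurd hij (bpl _)
        | exact absurd hij.symm (bpl _)
        | exact absurd hij (bp1 _)
        | exact absurd hij.symm (bp1 _)
        | exact absurd hij (ab _ _)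
        | exact absurd hij.symm (ab _ _)
  have hd1 := diag_union (diag_union h.spokes_diag h.pth_diag) h.XX_diag
  have hd2 := diag_union (diag_union h.spokes_diag h.pth_diag) h.YY_diag
  refine PD.st_of (d := d9) d9_ok ⟨f, hf⟩ d9_I d9_even ?_ ?_
  · intro e
    rw [mem_fes hd1]
    constructor
    · rintro (((⟨i, rfl⟩ | ⟨i, rfl⟩) | ⟨i, hi, rfl⟩) | ⟨i, rfl⟩)
      · fin_cases i
        exacts [⟨0, rfl, rfl⟩, ⟨1, rfl, rfl⟩, ⟨2, rfl, rfl⟩]
      · fin_cases i
        exacts [⟨4, rfl, rfl⟩, ⟨5, rfl, rfl⟩, ⟨6, rfl, rfl⟩]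
      · obtain rfl | rfl : i = 0 ∨ i = 1 := by omega
        · exact ⟨3, rfl, rfl⟩
        · exact ⟨7, rfl, Sym2.eq_swap⟩
      · fin_cases i
        exacts [⟨8, rfl, rfl⟩, ⟨9, rfl, rfl⟩, ⟨10, rfl, rfl⟩]
    · rintro ⟨i, hi, rfl⟩
      fin_cases i
      · exact Or.inl (Or.inl (Or.inl ⟨0, rfl⟩))
      · exact Or.inl (Or.inl (Or.inl ⟨1, rfl⟩))
      · exact Or.inl (Or.inl (Or.inl ⟨2, rfl⟩))
      · exact Or.inl (Or.inr ⟨0, two_pos, rfl⟩)
      · exact Or.inl (Or.inl (Or.inr ⟨0, rfl⟩))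
      · exact Or.inl (Or.inl (Or.inr ⟨1, rfl⟩))
      · exact Or.inl (Or.inl (Or.inr ⟨2, rfl⟩))
      · exact Or.inl (Or.inr ⟨1, one_lt_two, Sym2.eq_swap⟩)
      · exact Or.inr ⟨0, rfl⟩
      · exact Or.inr ⟨1, rfl⟩
      · exact Or.inr ⟨2, rfl⟩
      · exact absurd hi (by decide)
      · exact absurd hi (by decide)
      · exact absurd hi (by decide)
  · intro e
    rw [mem_fes hd2]
    constructor
    · rintro (((⟨i, rfl⟩ | ⟨i, rfl⟩) | ⟨i, hi, rfl⟩) | ⟨i, rfl⟩)
      · fin_cases i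
        exacts [⟨0, rfl, rfl⟩, ⟨1, rfl, rfl⟩, ⟨2, rfl, rfl⟩]
      · fin_cases i
        exacts [⟨4, rfl, rfl⟩, ⟨5, rfl, rfl⟩, ⟨6, rfl, rfl⟩]
      · obtain rfl | rfl : i = 0 ∨ i = 1 := by omega
        · exact ⟨3, rfl, rfl⟩
        · exact ⟨7, rfl, Sym2.eq_swap⟩
      · fin_cases i
        exacts [⟨11, rfl, rfl⟩, ⟨12, rfl, rfl⟩, ⟨13, rfl, rfl⟩]
    · rintro ⟨i, hi, rfl⟩
      fin_cases i
      · exact Or.inl (Or.inl (Or.inl ⟨0, rfl⟩))
      · exact Or.inl (Or.inl (Or.inl ⟨1, rfl⟩))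
      · exact Or.inl (Or.inl (Or.inl ⟨2, rfl⟩))
      · exact Or.inl (Or.inr ⟨0, two_pos, rfl⟩)
      · exact Or.inl (Or.inl (Or.inr ⟨0, rfl⟩))
      · exact Or.inl (Or.inl (Or.inr ⟨1, rfl⟩))
      · exact Or.inl (Or.inl (Or.inr ⟨2, rfl⟩))
      · exact Or.inl (Or.inr ⟨1, one_lt_two, Sym2.eq_swap⟩)
      · exact absurd hi (by decide)
      · exact absurd hi (by decide)
      · exact absurd hi (by decide)
      · exact Or.inr ⟨0, rfl⟩
      · exact Or.inr ⟨1, rfl⟩
      · exact Or.inr ⟨2, rfl⟩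

theorem base1 [Finite V] (h : Setup a b p 1) :
    St (fes (spokes (p 0) (p 1) a b ∪ pth p 1 ∪ XX a b))
      (fes (spokes (p 0) (p 1) a b ∪ pth p 1 ∪ YY a b)) := by
  let f : Fin 8 → V := ![p 0, p 1, a 0, a 1, a 2, b 0, b 1, b 2]
  have hf : Function.Injective f := by
    have e1 : p 0 ≠ p 1 := fun h' => by have := h.hp _ _ (by omega) (by omega) h'; omega
    have a01 : a 0 ≠ a 1 := fun h' => absurd (h.ha h') (by decide)
    have a02 : a 0 ≠ a 2 := fun h' => absurd (h.ha h') (by decide)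
    have a12 : a 1 ≠ a 2 := fun h' => absurd (h.ha h') (by decide)
    have b01 : b 0 ≠ b 1 := fun h' => absurd (h.hb h') (by decide)
    have b02 : b 0 ≠ b 2 := fun h' => absurd (h.hb h') (by decide)
    have b12 : b 1 ≠ b 2 := fun h' => absurd (h.hb h') (by decide)
    have ap := h.hap
    have bp := h.hbp
    have ab := h.hab
    have ap0 := fun i => ap i 0 (by omega)
    have ap1 := fun i => ap i 1 (by omega)
    have bp0 := fun i => bp i 0 (by omega)
    have bp1 := fun i => bp i 1 (by omega)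
    intro i j hij
    fin_cases i <;> fin_cases j <;> simp [f] at hij ⊢ <;>
      first
        | exact absurd hij (by assumption)
        | exact absurd hij.symm (by assumption)
        | exact absurd hij (ap0 _)
        | exact absurd hij.symm (ap0 _)
        | exact absurd hij (ap1 _)
        | exact absurd hij.symm (ap1 _)
        | exact absurd hij (bp0 _)
        | exact absurd hij.symm (bp0 _)
        | exact absurd hij (bp1 _)
        | exact absurd hij.symm (bp1 _)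
        | exact absurd hij (ab _ _)
        | exact absurd hij.symm (ab _ _)
  have hd1 := diag_union (diag_union h.spokes_diag h.pth_diag) h.XX_diag
  have hd2 := diag_union (diag_union h.spokes_diag h.pth_diag) h.YY_diag
  refine PD.st_of (d := d8) d8_ok ⟨f, hf⟩ d8_I d8_even ?_ ?_
  · intro e
    rw [mem_fes hd1]
    constructor
    · rintro (((⟨i, rfl⟩ | ⟨i, rfl⟩) | ⟨i, hi, rfl⟩) | ⟨i, rfl⟩)
      · fin_cases i
        exacts [⟨0, rfl, rfl⟩, ⟨1, rfl, rfl⟩, ⟨2, rfl, rfl⟩]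
      · fin_cases i
        exacts [⟨4, rfl, rfl⟩, ⟨5, rfl, rfl⟩, ⟨6, rfl, rfl⟩]
      · obtain rfl : i = 0 := by omega
        exact ⟨3, rfl, rfl⟩
      · fin_cases i
        exacts [⟨7, rfl, rfl⟩, ⟨8, rfl, rfl⟩, ⟨9, rfl, rfl⟩]
    · rintro ⟨i, hi, rfl⟩
      fin_cases i
      · exact Or.inl (Or.inl (Or.inl ⟨0, rfl⟩))
      · exact Or.inl (Or.inl (Or.inl ⟨1, rfl⟩))
      · exact Or.inl (Or.inl (Or.inl ⟨2, rfl⟩))
      · exact Or.inl (Or.inr ⟨0, one_pos, rfl⟩)
      · exact Or.inl (Or.inl (Or.inr ⟨0, rfl⟩))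
      · exact Or.inl (Or.inl (Or.inr ⟨1, rfl⟩))
      · exact Or.inl (Or.inl (Or.inr ⟨2, rfl⟩))
      · exact Or.inr ⟨0, rfl⟩
      · exact Or.inr ⟨1, rfl⟩
      · exact Or.inr ⟨2, rfl⟩
      · exact absurd hi (by decide)
      · exact absurd hi (by decide)
      · exact absurd hi (by decide)
  · intro e
    rw [mem_fes hd2]
    constructor
    · rintro (((⟨i, rfl⟩ | ⟨i, rfl⟩) | ⟨i, hi, rfl⟩) | ⟨i, rfl⟩)
      · fin_cases i
        exacts [⟨0, rfl, rfl⟩, ⟨1, rfl, rfl⟩, ⟨2, rfl, rfl⟩]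
      · fin_cases i
        exacts [⟨4, rfl, rfl⟩, ⟨5, rfl, rfl⟩, ⟨6, rfl, rfl⟩]
      · obtain rfl : i = 0 := by omega
        exact ⟨3, rfl, rfl⟩
      · fin_cases i
        exacts [⟨10, rfl, rfl⟩, ⟨11, rfl, rfl⟩, ⟨12, rfl, rfl⟩]
    · rintro ⟨i, hi, rfl⟩
      fin_cases i
      · exact Or.inl (Or.inl (Or.inl ⟨0, rfl⟩))
      · exact Or.inl (Or.inl (Or.inl ⟨1, rfl⟩))
      · exact Or.inl (Or.inl (Or.inl ⟨2, rfl⟩))
      · exact Or.inl (Or.inr ⟨0, one_pos, rfl⟩)
      · exact Or.inl (Or.inl (Or.inr ⟨0, rfl⟩))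
      · exact Or.inl (Or.inl (Or.inr ⟨1, rfl⟩))
      · exact Or.inl (Or.inl (Or.inr ⟨2, rfl⟩))
      · exact absurd hi (by decide)
      · exact absurd hi (by decide)
      · exact absurd hi (by decide)
      · exact Or.inr ⟨0, rfl⟩
      · exact Or.inr ⟨1, rfl⟩
      · exact Or.inr ⟨2, rfl⟩

end Pool.Agent.Y857.HT
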