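import Pool.Agent.Y857.HT.Base

/-!
# Subdividing an edge of a drawing near one of its ends
-/

set_option autoImplicit false

namespace Pool.Agent.Y857.HT

open Set Complex Topology Filter Pool.Agent.TH510.Sefe

theorem subarc {g : ℝ → ℂ} (hg : Continuous g) {a b : ℝ} (hab : a < b)
    (hinj : Set.InjOn g (Icc a b)) : IsArc (g '' Icc a b) (g a) (g b) := by
  have mem : ∀ t : unitInterval, a + (t : ℝ) * (b - a) ∈ Icc a b := by
    intro t
    have h0 := t.2.1
    have h1 := t.2.2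
    constructor <;> nlinarith
  refine ⟨⟨⟨fun t => g (a + (t : ℝ) * (b - a)), by fun_prop⟩, by simp, by simp⟩, ?_, ?_⟩
  · intro s t hst
    have h1 : g (a + (s : ℝ) * (b - a)) = g (a + (t : ℝ) * (b - a)) := hst
    have h2 := hinj (mem s) (mem t) h1
    have h3 : (s : ℝ) = t := by
      have : (b - a) ≠ 0 := by linarith
      exact mul_right_cancel₀ this (add_left_cancel h2)
    exact Subtype.ext h3
  · ext z
    constructor
    · rintro ⟨t, rfl⟩
      exact ⟨_, mem t, rfl⟩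
    · rintro ⟨t, ht, rfl⟩
      have hba : 0 < b - a := by linarith
      refine ⟨⟨(t - a) / (b - a), ?_, ?_⟩, ?_⟩
      · exact div_nonneg (by linarith [ht.1]) hba.le
      · rw [div_le_one hba]; linarith [ht.2]
      · change g (a + (t - a) / (b - a) * (b - a)) = g t
        rw [div_mul_cancel₀ _ hba.ne']
        congr 1; ring

theorem sub {V : Type} [Finite V] {G G' : SimpleGraph V} (D : Drawing G) (hN : Nice D)
    {u v w : V} (huv : G.Adj u v) (hwu : w ≠ u) (hwv : w ≠ v) (hw : ∀ x, ¬ G.Adj w x)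
    (hG : ∀ e, e ∈ G'.edgeSet ↔ (e ∈ G.edgeSet ∧ e ≠ s(u, v)) ∨ e = s(u, w) ∨ e = s(w, v)) :
    ∃ D' : Drawing G', Nice D' ∧
      (∀ e ∈ G.edgeSet, e ≠ s(u, v) → ∀ f ∈ G.edgeSet, f ≠ s(u, v) →
        D'.crossings e f = D.crossings e f) ∧
      (∀ f ∈ G.edgeSet, f ≠ s(u, v) → D'.crossings s(u, w) f = ∅ ∧ D'.crossings f s(u, w) = ∅ ∧
        D'.crossings s(w, v) f = D.crossings s(u, v) f ∧
        D'.crossings f s(w, v) = D.crossings f s(u, v)) ∧
      D'.crossings s(u, w) s(w, v) = ∅ ∧ D'.crossings s(w, v) s(u, w) = ∅ := by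
  classical
  have huv' : u ≠ v := huv.ne
  have he0 : s(u, v) ∈ G.edgeSet := huv
  obtain ⟨γ, hγ, hr⟩ := D.isArc u v huv
  obtain ⟨g, hgdef⟩ : ∃ g : ℝ → ℂ, g = ⇑γ.extend := ⟨_, rfl⟩
  have gc : Continuous g := by rw [hgdef]; exact γ.continuous_extend
  have g0 : g 0 = D.pt u := by rw [hgdef]; exact γ.extend_zero
  have g1 : g 1 = D.pt v := by rw [hgdef]; exact γ.extend_one
  have ginj : Set.InjOn g (Icc 0 1) := by
    intro s hs t ht hst
    rw [hgdef, γ.extend_apply hs, γ.extend_apply ht] at hst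
    exact congrArg Subtype.val (hγ hst)
  have gim : D.arc s(u, v) = g '' Icc 0 1 := by
    rw [← hr]
    ext z
    constructor
    · rintro ⟨t, rfl⟩
      refine ⟨t, t.2, ?_⟩
      rw [hgdef]; exact γ.extend_apply t.2
    · rintro ⟨t, ht, rfl⟩
      refine ⟨⟨t, ht⟩, ?_⟩
      rw [hgdef]; exact (γ.extend_apply ht).symm
  obtain ⟨S, hS0, hS⟩ := hN u
  -- the bad parameters
  have hBfin : ({t : ℝ | t ∈ Ioc 0 1 ∧ ∃ f ∈ G.edgeSet, f ≠ s(u, v) ∧ g t ∈ D.arc f}).Finite := by
    have h1 : (⋃ f ∈ {f | f ∈ G.edgeSet ∧ f ≠ s(u, v)}, (D.arc s(u, v) ∩ D.arc f)).Finite := by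
      refine (Set.toFinite _).biUnion fun f hf => ?_
      exact D.finite _ he0 f hf.1 (Ne.symm hf.2)
    refine Set.Finite.of_finite_image (f := g) (h1.subset ?_) ?_
    · rintro _ ⟨t, ⟨ht, f, hf, hne, htf⟩, rfl⟩
      refine Set.mem_biUnion (x := f) ⟨hf, hne⟩ ⟨?_, htf⟩
      rw [gim]; exact ⟨t, ⟨ht.1.le, ht.2⟩, rfl⟩
    · intro s hs t ht hst
      exact ginj ⟨hs.1.1.le, hs.1.2⟩ ⟨ht.1.1.le, ht.1.2⟩ hst
  have hB : ∀ᶠ t in 𝓝 (0 : ℝ), ∀ b ∈ {t : ℝ | t ∈ Ioc 0 1 ∧
      ∃ f ∈ G.edgeSet, f ≠ s(u, v) ∧ g t ∈ D.arc f}, t < b := by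
    rw [eventually_all_finite hBfin]
    intro b hb
    exact Iio_mem_nhds hb.1.1
  have hP : ∀ᶠ t in 𝓝 (0 : ℝ), ∀ᶠ z in 𝓝 (g t), ∀ e ∈ G.edgeSet, z ∈ D.arc e →
      ∃ s ∈ S, Ray (D.pt u) s z := by
    have h1 := hS.eventually_nhds
    rw [← g0] at h1
    have h2 := gc.continuousAt.eventually h1
    rw [g0] at h2
    exact h2
  have h1 : ∀ᶠ t in 𝓝 (0 : ℝ), t < 1 := Iio_mem_nhds one_pos
  obtain ⟨t0, ⟨⟨ht0B, ht0P⟩, ht01⟩, ht00⟩ := (((hB.and hP).and h1).filter_mono
    (nhdsWithin_le_nhds (s := Ioi 0)) |>.and self_mem_nhdsWithin).exists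
  have ht0 : 0 < t0 := ht00
  have hfree : ∀ t, 0 < t → t ≤ t0 → ∀ f ∈ G.edgeSet, f ≠ s(u, v) → g t ∉ D.arc f := by
    intro t h1 h2 f hf hne hmem
    have := ht0B t ⟨⟨h1, h2.trans ht01.le⟩, f, hf, hne, hmem⟩
    linarith
  set q : ℂ := g t0 with hq
  set A1 : Set ℂ := g '' Icc 0 t0 with hA1
  set A2 : Set ℂ := g '' Icc t0 1 with hA2
  have hunion : ∀ z, z ∈ D.arc s(u, v) ↔ z ∈ A1 ∨ z ∈ A2 := by
    intro z
    rw [gim]
    constructor
    · rintro ⟨t, ht, rfl⟩
      rcases le_total t t0 with h | h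
      · exact Or.inl ⟨t, ⟨ht.1, h⟩, rfl⟩
      · exact Or.inr ⟨t, ⟨h, ht.2⟩, rfl⟩
    · rintro (⟨t, ht, rfl⟩ | ⟨t, ht, rfl⟩)
      · exact ⟨t, ⟨ht.1, ht.2.trans ht01.le⟩, rfl⟩
      · exact ⟨t, ⟨ht0.le.trans ht.1, ht.2⟩, rfl⟩
  have arcA1 : IsArc A1 (D.pt u) q := by
    have := subarc gc ht0 (ginj.mono (Icc_subset_Icc_right ht01.le))
    rwa [g0] at this
  have arcA2 : IsArc A2 q (D.pt v) := by
    have := subarc gc ht01 (ginj.mono (Icc_subset_Icc_left ht0.le))
    rwa [g1] at this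
  have hint : ∀ z, z ∈ A1 → z ∈ A2 → z = q := by
    rintro z ⟨s, hs, rfl⟩ ⟨t, ht, hst⟩
    have := ginj ⟨ht0.le.trans ht.1, ht.2⟩ ⟨hs.1, hs.2.trans ht01.le⟩ hst
    have h3 : s = t0 := le_antisymm hs.2 (by rw [← this]; exact ht.1)
    rw [hq, h3]
  have F1 : ∀ z ∈ A1, ∀ f ∈ G.edgeSet, f ≠ s(u, v) → z ∈ D.arc f → z = D.pt u := by
    rintro z ⟨t, ht, rfl⟩ f hf hne hmem
    rcases ht.1.eq_or_lt with h | h
    · rw [← h, g0]
    · exact absurd hmem (hfree t h ht.2 f hf hne)
  have F1' : ∀ x, D.pt x ∈ A1 → x = u := by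
    intro x hx
    have h2 := D.avoid _ he0 x ((hunion _).2 (Or.inl hx))
    rcases Sym2.mem_iff.1 h2 with h | h
    · exact h
    · exfalso
      obtain ⟨t, ht, hxt⟩ := hx
      rw [h, ← g1] at hxt
      have := ginj ⟨ht.1, ht.2.trans ht01.le⟩ ⟨zero_le_one, le_rfl⟩ hxt
      linarith [ht.2]
  have F2' : ∀ x, D.pt x ∈ A2 → x = v := by
    intro x hx
    have h2 := D.avoid _ he0 x ((hunion _).2 (Or.inr hx))
    rcases Sym2.mem_iff.1 h2 with h | h
    · exfalso
      obtain ⟨t, ht, hxt⟩ := hx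
      rw [h, ← g0] at hxt
      have := ginj ⟨ht0.le.trans ht.1, ht.2⟩ ⟨le_rfl, zero_le_one⟩ hxt
      linarith [ht.1]
    · exact h
  have F3 : ∀ x, q ≠ D.pt x := by
    intro x h
    have hx1 : x = u := F1' x (by rw [← h]; exact ⟨t0, ⟨ht0.le, le_rfl⟩, rfl⟩)
    have hx2 : x = v := F2' x (by rw [← h]; exact ⟨t0, ⟨le_rfl, ht01.le⟩, rfl⟩)
    exact huv' (hx1.symm.trans hx2)
  have F4 : ∀ f ∈ G.edgeSet, f ≠ s(u, v) → q ∉ D.arc f := hfree t0 ht0 le_rfl
  have hwe : ∀ e ∈ G.edgeSet, w ∉ e := by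
    intro e he hwe
    obtain ⟨x, rfl⟩ := Sym2.mem_iff_exists.1 hwe
    exact hw x he
  have hne1 : ∀ e ∈ G.edgeSet, e ≠ s(u, w) := by
    rintro e he rfl
    exact hwe _ he (Sym2.mem_mk_right u w)
  have hne2 : ∀ e ∈ G.edgeSet, e ≠ s(w, v) := by
    rintro e he rfl
    exact hwe _ he (Sym2.mem_mk_left w v)
  have hne12 : s(w, v) ≠ s(u, w) := by
    intro h
    rw [Sym2.eq_iff] at h
    rcases h with ⟨h, -⟩ | ⟨-, h⟩
    · exact hwu h
    · exact huv' h.symm
  let pt' : V → ℂ := Function.update D.pt w q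
  have ptw : pt' w = q := Function.update_self _ _ _
  have ptx : ∀ x, x ≠ w → pt' x = D.pt x := fun x hx => Function.update_of_ne hx _ _
  let arc' : Sym2 V → Set ℂ := fun e => if e = s(u, w) then A1 else
    if e = s(w, v) then A2 else D.arc e
  have arc1 : arc' s(u, w) = A1 := if_pos rfl
  have arc2 : arc' s(w, v) = A2 := by
    change (if _ then _ else _) = _
    rw [if_neg hne12, if_pos rfl]
  have arco : ∀ e ∈ G.edgeSet, arc' e = D.arc e := by
    intro e he
    change (if _ then _ else _) = _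
    rw [if_neg (hne1 e he), if_neg (hne2 e he)]
  have rng : ∀ e ∈ G.edgeSet, e ≠ s(u, v) → ∀ z ∈ D.arc e,
      (z ∉ Set.range pt' ↔ z ∉ Set.range D.pt) := by
    intro e he hne z hz
    rw [not_iff_not]
    constructor
    · rintro ⟨x, rfl⟩
      by_cases hx : x = w
      · exfalso
        rw [hx, ptw] at hz
        exact F4 e he hne hz
      · exact ⟨x, (ptx x hx).symm⟩
    · rintro ⟨x, rfl⟩
      refine ⟨x, ptx x ?_⟩
      rintro rfl
      exact hwe e he (D.avoid e he _ hz)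
  have humem : D.pt u ∈ Set.range pt' := ⟨u, ptx u hwu.symm⟩
  have hqmem : q ∈ Set.range pt' := ⟨w, ptw⟩
  have fin1 : ∀ f ∈ G.edgeSet, f ≠ s(u, v) → (A1 ∩ D.arc f).Finite := fun f hf hne =>
    (Set.finite_singleton (D.pt u)).subset fun z hz => F1 z hz.1 f hf hne hz.2
  have fin2 : ∀ f ∈ G.edgeSet, f ≠ s(u, v) → (A2 ∩ D.arc f).Finite := fun f hf hne =>
    (D.finite _ he0 f hf (Ne.symm hne)).subset fun z hz => ⟨(hunion z).2 (Or.inr hz.1), hz.2⟩
  have fin12 : (A1 ∩ A2).Finite := (Set.finite_singleton q).subset fun z hz => hint z hz.1 hz.2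
  have congA2 : ∀ z ∈ A2, z ∉ Set.range pt' → z ∈ A1ᶜ := by
    intro z hz hzn h
    exact hzn (by rw [hint z h hz]; exact hqmem)
  have opn : IsOpen A1ᶜ := (isArc_compact arcA1).isClosed.isOpen_compl
  have cong : ∀ z ∈ A1ᶜ, (z ∈ D.arc s(u, v) ↔ z ∈ A2) := by
    intro z hz
    rw [hunion]
    exact ⟨fun h => h.resolve_left hz, Or.inr⟩
  let D' : Drawing G' :=
    { pt := pt'
      arc := arc'
      pt_inj := by
        intro x y hxy
        by_cases hx : x = w
        · by_cases hy : y = w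
          · rw [hx, hy]
          · rw [hx, ptw, ptx y hy] at hxy
            exact absurd hxy (F3 y)
        · by_cases hy : y = w
          · rw [hy, ptw, ptx x hx] at hxy
            exact absurd hxy.symm (F3 x)
          · rw [ptx x hx, ptx y hy] at hxy
            exact D.pt_inj hxy
      isArc := by
        intro x y hxy
        rcases (hG s(x, y)).1 hxy with ⟨h, -⟩ | h | h
        · rw [arco _ h, ptx x (fun hx => hwe _ h (hx ▸ Sym2.mem_mk_left x y)),
            ptx y (fun hy => hwe _ h (hy ▸ Sym2.mem_mk_right x y))]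
          exact D.isArc x y h
        · rw [h, arc1]
          rw [Sym2.eq_iff] at h
          rcases h with ⟨rfl, rfl⟩ | ⟨rfl, rfl⟩
          · rw [ptx _ hwu.symm, ptw]
            exact arcA1
          · rw [ptx _ hwu.symm, ptw]
            exact isArc_symm arcA1
        · rw [h, arc2]
          rw [Sym2.eq_iff] at h
          rcases h with ⟨rfl, rfl⟩ | ⟨rfl, rfl⟩
          · rw [ptx _ hwv.symm, ptw]
            exact arcA2
          · rw [ptx _ hwv.symm, ptw]
            exact isArc_symm arcA2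
      avoid := by
        intro e he x hx
        rcases (hG e).1 he with ⟨h, hne⟩ | h | h
        · rw [arco _ h] at hx
          by_cases hxw : x = w
          · rw [hxw, ptw] at hx
            exact absurd hx (F4 e h hne)
          · rw [ptx x hxw] at hx
            exact D.avoid e h x hx
        · rw [h, arc1] at hx
          rw [h]
          by_cases hxw : x = w
          · rw [hxw]; exact Sym2.mem_mk_right u w
          · rw [ptx x hxw] at hx
            rw [F1' x hx]; exact Sym2.mem_mk_left u w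
        · rw [h, arc2] at hx
          rw [h]
          by_cases hxw : x = w
          · rw [hxw]; exact Sym2.mem_mk_left w v
          · rw [ptx x hxw] at hx
            rw [F2' x hx]; exact Sym2.mem_mk_right w v
      finite := by
        intro e he f hf hef
        rcases (hG e).1 he with ⟨h, hne⟩ | h | h <;> rcases (hG f).1 hf with ⟨h', hne'⟩ | h' | h'
        · rw [arco _ h, arco _ h']; exact D.finite e h f h' hef
        · rw [arco _ h, h', arc1, Set.inter_comm]; exact fin1 e h hne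
        · rw [arco _ h, h', arc2, Set.inter_comm]; exact fin2 e h hne
        · rw [arco _ h', h, arc1]; exact fin1 f h' hne'
        · exact absurd (h.trans h'.symm) hef
        · rw [h, h', arc1, arc2]; exact fin12
        · rw [arco _ h', h, arc2]; exact fin2 f h' hne'
        · rw [h, h', arc1, arc2, Set.inter_comm]; exact fin12
        · exact absurd (h.trans h'.symm) hef
      proper := by
        intro e he f hf hef z hz hzn
        rcases (hG e).1 he with ⟨h, hne⟩ | h | h <;> rcases (hG f).1 hf with ⟨h', hne'⟩ | h' | h'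
        · rw [arco _ h, arco _ h'] at hz ⊢
          exact D.proper e h f h' hef z hz ((rng e h hne z hz.1).1 hzn)
        · rw [arco _ h, h', arc1] at hz
          exact absurd (by rw [F1 z hz.2 e h hne hz.1]; exact humem) hzn
        · rw [arco _ h, h', arc2] at hz ⊢
          refine proper_congr (D.proper e h _ he0 hne z ⟨hz.1, (hunion z).2 (Or.inr hz.2)⟩
            ((rng e h hne z hz.1).1 hzn)) opn (congA2 z hz.2 hzn) (fun _ _ => Iff.rfl) cong
        · rw [arco _ h', h, arc1] at hz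
          exact absurd (by rw [F1 z hz.1 f h' hne' hz.2]; exact humem) hzn
        · exact absurd (h.trans h'.symm) hef
        · rw [h, h', arc1, arc2] at hz
          exact absurd (by rw [hint z hz.1 hz.2]; exact hqmem) hzn
        · rw [arco _ h', h, arc2] at hz ⊢
          refine proper_congr (D.proper _ he0 f h' (Ne.symm hne') z
            ⟨(hunion z).2 (Or.inr hz.1), hz.2⟩
            ((rng f h' hne' z hz.2).1 hzn)) opn (congA2 z hz.1 hzn) cong (fun _ _ => Iff.rfl)
        · rw [h, h', arc1, arc2] at hz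
          exact absurd (by rw [hint z hz.2 hz.1]; exact hqmem) hzn
        · exact absurd (h.trans h'.symm) hef }
  have old : ∀ e ∈ G'.edgeSet, ∀ z, z ∈ arc' e → ∃ f ∈ G.edgeSet, z ∈ D.arc f := by
    intro e he z hz
    rcases (hG e).1 he with ⟨h, -⟩ | h | h
    · rw [arco _ h] at hz
      exact ⟨e, h, hz⟩
    · rw [h, arc1] at hz
      exact ⟨_, he0, (hunion z).2 (Or.inl hz)⟩
    · rw [h, arc2] at hz
      exact ⟨_, he0, (hunion z).2 (Or.inr hz)⟩
  refine ⟨D', ?_, ?_, ?_, ?_, ?_⟩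
  · intro x
    by_cases hxw : x = w
    · have h1 : D'.pt x = q := by rw [hxw]; exact ptw
      rw [h1]
      refine ⟨S ∪ S.image (fun s => -s), ?_, ?_⟩
      · intro s hs
        rcases Finset.mem_union.1 hs with hs | hs
        · exact hS0 s hs
        · obtain ⟨s', hs', rfl⟩ := Finset.mem_image.1 hs
          exact neg_ne_zero.2 (hS0 s' hs')
      · have e1 : ∀ᶠ z in 𝓝 q, ∀ f ∈ {f | f ∈ G.edgeSet ∧ f ≠ s(u, v)}, z ∉ D.arc f :=
          eventually_notMem D q _ (fun f hf => hf.1) (fun f hf => F4 f hf.1 hf.2)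
        have e2 : ∀ᶠ z in 𝓝 q, ∀ s ∈ S, Ray (D.pt u) s z → Ray (D.pt u) s q := by
          have : ∀ᶠ z in 𝓝 q, ∀ s ∈ (S : Set ℂ), Ray (D.pt u) s z → Ray (D.pt u) s q := by
            rw [eventually_all_finite S.finite_toSet]
            intro s hs
            by_cases hsq : Ray (D.pt u) s q
            · exact Filter.Eventually.of_forall fun z _ => hsq
            · filter_upwards [(isClosed_ray (D.pt u) s).isOpen_compl.mem_nhds hsq] with z hz h
              exact absurd h hz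
          exact this
        filter_upwards [ht0P, e1, e2] with z hz1 hz2 hz3 e he hze
        obtain ⟨f, hf, hzf⟩ := old e he z hze
        obtain ⟨s, hs, hr⟩ := hz1 f hf hzf
        have hr' := hz3 s hs hr
        have him : ((z - q) * (starRingEnd ℂ) s).im = 0 := by
          have : (z - q) * (starRingEnd ℂ) s = (z - D.pt u) * (starRingEnd ℂ) s -
            (q - D.pt u) * (starRingEnd ℂ) s := by ring
          rw [this, Complex.sub_im, hr.1, hr'.1, sub_zero]
        rcases le_total 0 ((z - q) * (starRingEnd ℂ) s).re with h | h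
        · exact ⟨s, Finset.mem_union_left _ hs, him, h⟩
        · refine ⟨-s, Finset.mem_union_right _ (Finset.mem_image_of_mem _ hs), ?_, ?_⟩
          · rw [map_neg, mul_neg, Complex.neg_im, him, neg_zero]
          · rw [map_neg, mul_neg, Complex.neg_re]; linarith
    · obtain ⟨S', hS'0, hS'⟩ := hN x
      refine ⟨S', hS'0, ?_⟩
      have h1 : D'.pt x = D.pt x := ptx x hxw
      rw [h1]
      filter_upwards [hS'] with z hz e he hze
      obtain ⟨f, hf, hzf⟩ := old e he z hze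
      exact hz f hf hzf
  · intro e he hne f hf hne'
    ext z
    change (z ∈ arc' e ∩ arc' f ∧ z ∉ Set.range pt') ↔ (z ∈ D.arc e ∩ D.arc f ∧ z ∉ Set.range D.pt)
    rw [arco _ he, arco _ hf]
    constructor
    · rintro ⟨h1, h2⟩
      exact ⟨h1, (rng e he hne z h1.1).1 h2⟩
    · rintro ⟨h1, h2⟩
      exact ⟨h1, (rng e he hne z h1.1).2 h2⟩
  · intro f hf hne
    have key : ∀ z, z ∈ D.arc s(u, v) → z ∈ D.arc f → z ∉ Set.range D.pt → z ∈ A2 := by
      intro z hz hzf hzn
      rcases (hunion z).1 hz with h | h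
      · exact absurd (by rw [F1 z h f hf hne hzf]; exact ⟨u, rfl⟩) hzn
      · exact h
    refine ⟨?_, ?_, ?_, ?_⟩
    · rw [Set.eq_empty_iff_forall_notMem]
      intro z hz
      change z ∈ arc' s(u, w) ∩ arc' f ∧ z ∉ Set.range pt' at hz
      rw [arc1, arco _ hf] at hz
      exact hz.2 (by rw [F1 z hz.1.1 f hf hne hz.1.2]; exact humem)
    · rw [Set.eq_empty_iff_forall_notMem]
      intro z hz
      change z ∈ arc' f ∩ arc' s(u, w) ∧ z ∉ Set.range pt' at hz
      rw [arc1, arco _ hf] at hz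
      exact hz.2 (by rw [F1 z hz.1.2 f hf hne hz.1.1]; exact humem)
    · ext z
      change (z ∈ arc' s(w, v) ∩ arc' f ∧ z ∉ Set.range pt') ↔
        (z ∈ D.arc s(u, v) ∩ D.arc f ∧ z ∉ Set.range D.pt)
      rw [arc2, arco _ hf]
      constructor
      · rintro ⟨⟨h1, h2⟩, h3⟩
        exact ⟨⟨(hunion z).2 (Or.inr h1), h2⟩, (rng f hf hne z h2).1 h3⟩
      · rintro ⟨⟨h1, h2⟩, h3⟩
        exact ⟨⟨key z h1 h2 h3, h2⟩, (rng f hf hne z h2).2 h3⟩
    · ext z
      change (z ∈ arc' f ∩ arc' s(w, v) ∧ z ∉ Set.range pt') ↔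
        (z ∈ D.arc f ∩ D.arc s(u, v) ∧ z ∉ Set.range D.pt)
      rw [arc2, arco _ hf]
      constructor
      · rintro ⟨⟨h2, h1⟩, h3⟩
        exact ⟨⟨h2, (hunion z).2 (Or.inr h1)⟩, (rng f hf hne z h2).1 h3⟩
      · rintro ⟨⟨h2, h1⟩, h3⟩
        exact ⟨⟨h2, key z h1 h2 h3⟩, (rng f hf hne z h2).2 h3⟩
  · rw [Set.eq_empty_iff_forall_notMem]
    intro z hz
    change z ∈ arc' s(u, w) ∩ arc' s(w, v) ∧ z ∉ Set.range pt' at hz
    rw [arc1, arc2] at hz
    exact hz.2 (by rw [hint z hz.1.1 hz.1.2]; exact hqmem)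
  · rw [Set.eq_empty_iff_forall_notMem]
    intro z hz
    change z ∈ arc' s(w, v) ∩ arc' s(u, w) ∧ z ∉ Set.range pt' at hz
    rw [arc1, arc2] at hz
    exact hz.2 (by rw [hint z hz.1.2 hz.1.1]; exact hqmem)

end Pool.Agent.Y857.HT
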