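import Pool.Agent.Y857.HT.Leaf
import Pool.Agent.Y857.HT.Sub
import Pool.Agent.Y857.HT.Ext

/-!
# Pairs of graphs with a drawing without independent odd crossings
-/

set_option autoImplicit false

namespace Pool.Agent.Y857.HT

open Set Complex Topology Filter Pool.Agent.TH510.Sefe

variable {V : Type}

/-- no two independent edges of `H` cross an odd number of times -/
def Ev {G : SimpleGraph V} (D : Drawing G) (H : SimpleGraph V) : Prop :=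
  ∀ e ∈ H.edgeSet, ∀ f ∈ H.edgeSet, Indep e f → ¬ Odd (D.crossings e f).ncard

/-- the edge `m` crosses every other edge of `H` an even number of times -/
def EvE {G : SimpleGraph V} (D : Drawing G) (H : SimpleGraph V) (m : Sym2 V) : Prop :=
  m ∈ H.edgeSet ∧ ∀ f ∈ H.edgeSet, f ≠ m →
    ¬ Odd (D.crossings m f).ncard ∧ ¬ Odd (D.crossings f m).ncard

def St (G₁ G₂ : SimpleGraph V) : Prop :=
  ∃ (G : SimpleGraph V) (D : Drawing G), G = G₁ ⊔ G₂ ∧ Nice D ∧ Ev D G₁ ∧ Ev D G₂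

def StM (G₁ G₂ : SimpleGraph V) (m : Sym2 V) : Prop :=
  ∃ (G : SimpleGraph V) (D : Drawing G), G = G₁ ⊔ G₂ ∧ Nice D ∧ Ev D G₁ ∧ Ev D G₂ ∧
    EvE D G₁ m ∧ EvE D G₂ m

theorem StM.st {G₁ G₂ : SimpleGraph V} {m : Sym2 V} (h : StM G₁ G₂ m) : St G₁ G₂ := by
  obtain ⟨G, D, h1, h2, h3, h4, -, -⟩ := h
  exact ⟨G, D, h1, h2, h3, h4⟩

theorem edge_sup {G G₁ G₂ : SimpleGraph V} (h : G = G₁ ⊔ G₂) {e : Sym2 V} :
    e ∈ G.edgeSet ↔ e ∈ G₁.edgeSet ∨ e ∈ G₂.edgeSet := by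
  rw [h, SimpleGraph.edgeSet_sup]; rfl

theorem ev_leaf {G G' : SimpleGraph V} {D : Drawing G} {D' : Drawing G'} {H H' : SimpleGraph V}
    {v w : V} (hH : H ≤ G) (h : Ev D H)
    (h1 : ∀ e ∈ G.edgeSet, ∀ f ∈ G.edgeSet, D'.crossings e f = D.crossings e f)
    (h2 : ∀ f ∈ G.edgeSet, D'.crossings s(v, w) f = ∅ ∧ D'.crossings f s(v, w) = ∅)
    (hH' : ∀ e, e ∈ H'.edgeSet ↔ e ∈ H.edgeSet ∨ e = s(v, w)) : Ev D' H' := by
  have hsub : ∀ e ∈ H.edgeSet, e ∈ G.edgeSet := fun e he => SimpleGraph.edgeSet_mono hH he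
  intro e he f hf hi
  rcases (hH' e).1 he with he | he <;> rcases (hH' f).1 hf with hf | hf
  · rw [h1 e (hsub e he) f (hsub f hf)]; exact h e he f hf hi
  · rw [hf, (h2 e (hsub e he)).2]; simp
  · rw [he, (h2 f (hsub f hf)).1]; simp
  · exfalso
    rw [he, hf] at hi
    exact hi v ⟨Sym2.mem_mk_left v w, Sym2.mem_mk_left v w⟩

theorem St.leaf [Finite V] {G₁ G₂ G₁' G₂' : SimpleGraph V} (h : St G₁ G₂) {v w : V} (hvw : v ≠ w)
    (hw1 : ∀ e ∈ G₁.edgeSet, w ∉ e) (hw2 : ∀ e ∈ G₂.edgeSet, w ∉ e)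
    (h1 : ∀ e, e ∈ G₁'.edgeSet ↔ e ∈ G₁.edgeSet ∨ e = s(v, w))
    (h2 : ∀ e, e ∈ G₂'.edgeSet ↔ e ∈ G₂.edgeSet ∨ e = s(v, w)) : St G₁' G₂' := by
  obtain ⟨G, D, hG, hN, e1, e2⟩ := h
  have hw : ∀ x, ¬ G.Adj w x := by
    intro x hx
    have hx' : s(w, x) ∈ G.edgeSet := hx
    rcases (edge_sup hG).1 hx' with h | h
    · exact hw1 _ h (Sym2.mem_mk_left w x)
    · exact hw2 _ h (Sym2.mem_mk_left w x)
  obtain ⟨D', hN', c1, c2⟩ := Pool.Agent.Y857.HT.leaf (G' := G₁' ⊔ G₂') D hN hvw hw (by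
    intro e
    rw [edge_sup rfl, edge_sup hG, h1, h2]; tauto)
  have s1 : G₁ ≤ G := by rw [hG]; exact le_sup_left
  have s2 : G₂ ≤ G := by rw [hG]; exact le_sup_right
  exact ⟨_, D', rfl, hN', ev_leaf s1 e1 c1 c2 h1, ev_leaf s2 e2 c1 c2 h2⟩

section sub

variable {G G' : SimpleGraph V} {D : Drawing G} {D' : Drawing G'} {H H' : SimpleGraph V}
    {u v w : V}

theorem ev_sub (hH : H ≤ G) (h : Ev D H) (hm : EvE D H s(u, v))
    (h1 : ∀ e ∈ G.edgeSet, e ≠ s(u, v) → ∀ f ∈ G.edgeSet, f ≠ s(u, v) →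
        D'.crossings e f = D.crossings e f)
    (h2 : ∀ f ∈ G.edgeSet, f ≠ s(u, v) → D'.crossings s(u, w) f = ∅ ∧
        D'.crossings f s(u, w) = ∅ ∧
        D'.crossings s(w, v) f = D.crossings s(u, v) f ∧
        D'.crossings f s(w, v) = D.crossings f s(u, v))
    (h3 : D'.crossings s(u, w) s(w, v) = ∅ ∧ D'.crossings s(w, v) s(u, w) = ∅)
    (hH' : ∀ e, e ∈ H'.edgeSet ↔ (e ∈ H.edgeSet ∧ e ≠ s(u, v)) ∨ e = s(u, w) ∨ e = s(w, v)) :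
    Ev D' H' ∧ EvE D' H' s(w, v) := by
  have hsub : ∀ e ∈ H.edgeSet, e ∈ G.edgeSet := fun e he => SimpleGraph.edgeSet_mono hH he
  constructor
  · intro e he f hf hi
    rcases (hH' e).1 he with ⟨he, hne⟩ | he | he <;> rcases (hH' f).1 hf with ⟨hf, hnf⟩ | hf | hf
    · rw [h1 e (hsub e he) hne f (hsub f hf) hnf]; exact h e he f hf hi
    · rw [hf, (h2 e (hsub e he) hne).2.1]; simp
    · rw [hf, (h2 e (hsub e he) hne).2.2.2]; exact (hm.2 e he hne).2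
    · rw [he, (h2 f (hsub f hf) hnf).1]; simp
    · exfalso
      rw [he, hf] at hi
      exact hi w ⟨Sym2.mem_mk_right u w, Sym2.mem_mk_right u w⟩
    · rw [he, hf, h3.1]; simp
    · rw [he, (h2 f (hsub f hf) hnf).2.2.1]; exact (hm.2 f hf hnf).1
    · rw [he, hf, h3.2]; simp
    · exfalso
      rw [he, hf] at hi
      exact hi w ⟨Sym2.mem_mk_left w v, Sym2.mem_mk_left w v⟩
  · refine ⟨(hH' _).2 (Or.inr (Or.inr rfl)), ?_⟩
    intro f hf hfm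
    rcases (hH' f).1 hf with ⟨hf, hnf⟩ | hf | hf
    · rw [(h2 f (hsub f hf) hnf).2.2.1, (h2 f (hsub f hf) hnf).2.2.2]
      exact hm.2 f hf hnf
    · rw [hf, h3.1, h3.2]; simp
    · exact absurd hf hfm

end sub

theorem StM.sub [Finite V] {G₁ G₂ G₁' G₂' : SimpleGraph V} {u v w : V} (h : StM G₁ G₂ s(u, v))
    (hwu : w ≠ u) (hwv : w ≠ v)
    (hw1 : ∀ e ∈ G₁.edgeSet, w ∉ e) (hw2 : ∀ e ∈ G₂.edgeSet, w ∉ e)
    (h1 : ∀ e, e ∈ G₁'.edgeSet ↔ (e ∈ G₁.edgeSet ∧ e ≠ s(u, v)) ∨ e = s(u, w) ∨ e = s(w, v))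
    (h2 : ∀ e, e ∈ G₂'.edgeSet ↔ (e ∈ G₂.edgeSet ∧ e ≠ s(u, v)) ∨ e = s(u, w) ∨ e = s(w, v)) :
    StM G₁' G₂' s(w, v) := by
  obtain ⟨G, D, hG, hN, e1, e2, m1, m2⟩ := h
  have hw : ∀ x, ¬ G.Adj w x := by
    intro x hx
    have hx' : s(w, x) ∈ G.edgeSet := hx
    rcases (edge_sup hG).1 hx' with h | h
    · exact hw1 _ h (Sym2.mem_mk_left w x)
    · exact hw2 _ h (Sym2.mem_mk_left w x)
  have huv : G.Adj u v := (edge_sup hG).2 (Or.inl m1.1)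
  obtain ⟨D', hN', c1, c2, c3, c4⟩ := Pool.Agent.Y857.HT.sub (G' := G₁' ⊔ G₂') D hN huv hwu hwv hw
    (by
      intro e
      rw [edge_sup rfl, edge_sup hG, h1, h2]; tauto)
  have s1 : G₁ ≤ G := by rw [hG]; exact le_sup_left
  have s2 : G₂ ≤ G := by rw [hG]; exact le_sup_right
  obtain ⟨a1, b1⟩ := ev_sub s1 e1 m1 c1 c2 ⟨c3, c4⟩ h1
  obtain ⟨a2, b2⟩ := ev_sub s2 e2 m2 c1 c2 ⟨c3, c4⟩ h2
  exact ⟨_, D', rfl, hN', a1, a2, b1, b2⟩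

end Pool.Agent.Y857.HT
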